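import Pool.Agent.TH93.U2.Up

/-!
Relative to a random oracle, all disjoint `NP` pairs together are not hard for the languages with at
most two witnesses.
-/

set_option autoImplicit false

namespace Pool.Agent.TH93.U2

open MeasureTheory Pool.Agent.NPC
open Pool.Agent.H628R3.RO hiding strs mem_strs
open Pool.Agent.H822R2.ESY (join strs mem_strs card_strs IsP IsBPP Mem acc)
open Pool.Agent.H620R2.Gauge (Gate accProb IsBQP)

/-- Quantum polynomial time is contained in quantum time `2 ^ O(n ^ c)`. -/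
theorem bqsub_of_bqp {O : Oracle} {L : Set (List Bool)} (c : ℝ) (h : IsBQP O L) :
    IsBQSub c O L := by
  obtain ⟨C, hC, hx⟩ := h
  refine ⟨fun z => C (unpair z).1, ?_, fun x => ?_⟩
  · have h1 : NPC.Poly (fun z : List Bool => bits (C (unpair z).1)) :=
      (Pool.Agent.H622R2.poly_of_polyTime hC).comp (NPC.Poly.fst poly_unpair)
    exact Pool.Agent.H622R2.polyTime_of_poly_list h1
  · simp only [pad, unpair_pairBits]
    exact hx x

theorem qmasub_of_qma {O : Oracle} {L : Set (List Bool)} (c : ℝ) (h : IsQMA O L) :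
    IsQMASub c O L := by
  obtain ⟨C, hC, hx⟩ := h
  refine ⟨fun z => C (unpair z).1, ?_, fun x => ?_⟩
  · have h1 : NPC.Poly (fun z : List Bool => bits (C (unpair z).1)) :=
      (Pool.Agent.H622R2.poly_of_polyTime hC).comp (NPC.Poly.fst poly_unpair)
    exact Pool.Agent.H622R2.polyTime_of_poly_list h1
  · simp only [pad, unpair_pairBits]
    exact hx x

theorem am_of_np {O : Oracle} {L : Set (List Bool)} (h : IsNP O L) : IsAM O L := by
  classical
  obtain ⟨V, p, hV, hL⟩ := h
  refine ⟨fun z => V ((fun z => pairBits (unpair (unpair z).2).2 (unpair (unpair z).2).1) z), p,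
    IsFP.comp hV (IsFP.of_poly ?_), fun x => ?_⟩
  · have h2 : Poly (fun y : List Bool => (unpair y).2) := Poly.snd poly_unpair
    have h1 : Poly (fun y : List Bool => (unpair y).1) := Poly.fst poly_unpair
    exact H622R2.poly_pairBits (h2.comp h2) (h1.comp h2)
  · unfold amPr
    simp only [unpair_pairBits]
    constructor
    · intro hx
      have h1 := (hL x).1 hx
      have h2 : Nat.card {w : Fin (p.eval x.length) → Bool // ∃ y : List Bool,
          y.length ≤ p.eval x.length ∧ V (pairBits x y) = [true]} = 2 ^ p.eval x.length := by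
        rw [Nat.card_congr (Equiv.subtypeUnivEquiv fun _ => h1)]
        simp
      rw [h2]
      have h3 : (0 : ℝ) < 2 ^ p.eval x.length := by positivity
      push_cast
      rw [div_self h3.ne']
      norm_num
    · intro hx
      have h2 : IsEmpty {w : Fin (p.eval x.length) → Bool // ∃ y : List Bool,
          y.length ≤ p.eval x.length ∧ V (pairBits x y) = [true]} :=
        ⟨fun w => hx ((hL x).2 w.2)⟩
      rw [Nat.card_of_isEmpty]
      norm_num

/-- the language is hard for the oracle `O` -/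
structure Hard (O : Oracle) (L : Set (List Bool)) : Prop where
  bpp : ¬ IsBPP O L
  am : ¬ IsAM O Lᶜ
  amsub : ∀ c : ℚ, c < 1 → ¬ IsAMSub c O Lᶜ
  bqsub : ∀ c : ℚ, c < 1 → ¬ IsBQSub c O L
  qmasub : ∀ c : ℚ, c < 1 → ¬ IsQMASub c O Lᶜ

theorem amPr_eq {O : Oracle} {M : Alg} {V : List Bool → List Bool} (hM : ∀ x, M.out O x = some (V x))
    (m : ℕ) (x : List Bool) : amPr V m x = (amNum M m O x : ℝ) / 2 ^ m := by
  unfold amPr amNum
  simp only [hM, Option.some_inj]

/-- Relative to a random oracle, all disjoint `NP` pairs together are not hard for the languages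
with at most two witnesses. -/
theorem main (Bf : Oracle) : ∀ᵐ A ∂randomOracle, ∃ (L : Set (List Bool)) (S : Oracle),
    IsUPle 2 A L ∧
    (∀ K₀ K₁ : Set (List Bool), IsPair (IsNP (join A Bf)) K₀ K₁ → ∃ l : ℕ, ∀ q : List Bool,
      (q ∈ K₀ → S (code l q) = true) ∧ (q ∈ K₁ → S (code l q) = false)) ∧
    Hard (join (join A Bf) S) L := by
  filter_upwards [ae_all Bf, ae_two] with A hA hA2
  obtain ⟨N₀, hN₀⟩ := hA2
  obtain ⟨S, hS, hS'⟩ := exists_sep (A := A) (Bf := Bf) (N₀ := N₀)
    (fun D i t₀ S₀ => hA D i t₀ S₀ N₀)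
  refine ⟨LN N₀ A, S, isUPle_LN hN₀, ?_, ?_⟩
  · rintro B C ⟨⟨fB, pB, ⟨VB, hVB⟩, hB⟩, ⟨fC, pC, ⟨VC, hVC⟩, hC⟩, hdis⟩
    have hB' : ∀ q, q ∈ B ↔ Mem VB pB (join A Bf) q := by
      intro q
      rw [hB q]
      unfold Mem
      refine exists_congr fun w => and_congr_right fun _ => ?_
      rw [hVB, Option.some_inj]
    have hC' : ∀ q, q ∈ C ↔ Mem VC pC (join A Bf) q := by
      intro q
      rw [hC q]
      unfold Mem
      refine exists_congr fun w => and_congr_right fun _ => ?_
      rw [hVC, Option.some_inj]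
    obtain ⟨l, hl⟩ := hS ((VB, pB), (VC, pC))
      (fun q hq => hdis q ⟨(hB' q).2 hq.1, (hC' q).2 hq.2⟩)
    exact ⟨l, fun q => ⟨fun hq => (hl q).1 ((hB' q).1 hq), fun hq => (hl q).2 ((hC' q).1 hq)⟩⟩
  have hmem : ∀ x : List Bool, N₀ ≤ x.length → (x ∈ LN N₀ A ↔ x ∈ LL A) := fun x hx =>
    ⟨fun h => h.2, fun h => ⟨hx, h⟩⟩
  have hmem' : ∀ x : List Bool, N₀ ≤ x.length → (x ∈ (LN N₀ A)ᶜ ↔ x ∉ LL A) := fun x hx =>
    not_congr (hmem x hx)
  have hAM : ∀ (c : TIdx) (V : List Bool → List Bool) (p : Polynomial ℕ),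
      IsFP (join (join A Bf) S) V → ¬ ∀ x : List Bool,
      (x ∈ (LN N₀ A)ᶜ → 2 / 3 ≤ amPr V (p.eval (inp c x).length) (inp c x)) ∧
      (x ∉ (LN N₀ A)ᶜ → amPr V (p.eval (inp c x).length) (inp c x) ≤ 1 / 3) := by
    rintro c V p ⟨M, hM⟩ hV
    obtain ⟨x, hxN, hx⟩ := hS' (Sum.inr (Sum.inl (M, p, c)))
    apply hx
    have h1 := hV x
    rw [amPr_eq hM] at h1
    have h2k : (0 : ℝ) < 2 ^ p.eval (inp c x).length := by positivity
    rw [div_le_iff₀ h2k, le_div_iff₀ h2k, hmem' x hxN, not_not] at h1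
    refine ⟨fun h2 => ?_, fun h2 => ?_⟩
    · have h3 := h1.2 h2
      show 3 * amNum M (p.eval (inp c x).length) (join (join A Bf) S) (inp c x) ≤
        2 ^ p.eval (inp c x).length
      have h4 : (3 * amNum M (p.eval (inp c x).length) (join (join A Bf) S) (inp c x) : ℝ) ≤
        2 ^ p.eval (inp c x).length := by linarith
      exact_mod_cast h4
    · have h3 := h1.1 h2
      show 2 * 2 ^ p.eval (inp c x).length ≤
        3 * amNum M (p.eval (inp c x).length) (join (join A Bf) S) (inp c x)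
      have h4 : (2 * 2 ^ p.eval (inp c x).length : ℝ) ≤
        3 * amNum M (p.eval (inp c x).length) (join (join A Bf) S) (inp c x) := by linarith
      exact_mod_cast h4
  constructor
  · rintro ⟨F, p, ⟨M, hM⟩, hF⟩
    obtain ⟨x, hxN, hx⟩ := hS' (Sum.inl (M, p))
    apply hx
    have h1 : acc M (join (join A Bf) S) x (p.eval x.length) =
        ((strs (p.eval x.length)).filter (fun r => F (pairBits x r) = [true])).card := by
      unfold acc
      congr 1
      apply Finset.filter_congr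
      intro r _
      rw [hM, Option.some_inj]
    have h2 := hF x
    rw [← h1, hmem x hxN] at h2
    exact h2
  · rintro ⟨V, p, hV, hx⟩
    exact hAM none V p hV hx
  · rintro c hc ⟨V, p, hV, hx⟩
    exact hAM (some ⟨c, hc⟩) V p hV hx
  · rintro c hc ⟨C', hC', hx⟩
    obtain ⟨x, hxN, hx1⟩ := hS' (Sum.inr (Sum.inr (Sum.inl (⟨C', hC'⟩, some ⟨c, hc⟩))))
    apply hx1
    have h1 := hx x
    rw [hmem x hxN] at h1
    exact h1
  · rintro c hc ⟨C', hC', hx⟩
    obtain ⟨x, hxN, hx1⟩ := hS' (Sum.inr (Sum.inr (Sum.inr (⟨C', hC'⟩, some ⟨c, hc⟩))))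
    apply hx1
    have h1 := hx x
    rw [hmem' x hxN, not_not] at h1
    exact ⟨h1.2, h1.1⟩

theorem poly_code (l : ℕ) : Poly (code l) := by
  unfold code
  exact Poly.append (NPC.Poly.const _) (Poly.cons (NPC.Poly.const false) Poly.id)

/-- asking the second oracle -/
theorem isP_ask (X S : Oracle) {g : List Bool → List Bool} (hg : Poly g) :
    IsP (join X S) {x | S (g x) = true} := by
  refine ⟨_, IsFP.tt (A := join X S) (Q := fun x => [true :: g x]) (H := fun z => z.2)
    (Poly.cons (Poly.cons (NPC.Poly.const true) hg) (NPC.Poly.const []))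
    (Poly.snd Poly.id), fun x => ?_⟩
  simp only [List.map_cons, List.map_nil, List.cons.injEq, and_true]
  rfl

end Pool.Agent.TH93.U2
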