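import Pool.Agent.H822R2.ESY.Flow

/-!
The flow inequality with rare hits: the blocks have an expected number of hits that tends to zero,
and the inequality holds on average over the blocks. (It generalizes the flow inequality of
`Pool.Agent.H822R2.ESY.Flow`, where every block has one hit on average.)
-/

set_option autoImplicit false

namespace Pool.Agent.TH93.U2

open MeasureTheory Pool.Agent.H628R3.RO Pool.Agent.H628R3.RO.M2
open Pool.Agent.H822R2.ESY (prob_eq_integral sum_prob_eq integrable_count le_sum_prob sum_prob_le'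
  sum_hitSet_le prob_plant_noHit_le From loc_from)

/-- two different hits are independent of an invariant event -/
theorem prob_hit_hit {S : Set Oracle} (hS : MeasurableSet S) (m : ℕ) {κ κ' : Cand} (hne : κ ≠ κ')
    (hinv : ∀ A, plant (spots m κ) A ∈ S ↔ A ∈ S) (hinv' : ∀ A, plant (spots m κ') A ∈ S ↔ A ∈ S) :
    prob (S ∩ {A | Hit m κ A} ∩ {A | Hit m κ' A}) = (1 / 2) ^ m * ((1 / 2) ^ m * prob S) := by
  rw [prob_hit_inter (hS.inter (measurableSet_hit m κ)) m κ', prob_hit_inter hS m κ hinv]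
  intro A
  rw [Set.mem_inter_iff, Set.mem_inter_iff, hinv' A]
  refine and_congr_right fun _ => ?_
  simp only [Set.mem_ofPred_eq]
  rw [← allSpots_singleton]
  apply hit_plant
  rw [Finset.mem_singleton]
  exact hne

open scoped Classical in
/-- the second moment method for the number of hits -/
theorem sum_hit_le {D η : Set Oracle} (hD : MeasurableSet D) (hη : MeasurableSet η) (hDη : D ⊆ η)
    (m : ℕ) (W : Finset Cand) (hinv : ∀ κ ∈ W, ∀ A, plant (spots m κ) A ∈ η ↔ A ∈ η)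
    {a : ℝ} (ha : 0 < a) :
    ∑ κ ∈ W, prob (D ∩ {A | Hit m κ A}) ≤ a * prob D +
      (1 / a) * ((W.card * (1 / 2 : ℝ) ^ m) ^ 2 + W.card * (1 / 2 : ℝ) ^ m) * prob η := by
  have hDm : ∀ κ ∈ W, MeasurableSet (D ∩ {A | Hit m κ A}) := fun κ _ =>
    hD.inter (measurableSet_hit m κ)
  have hPm : ∀ i ∈ W ×ˢ W, MeasurableSet (η ∩ {A | Hit m i.1 A} ∩ {A | Hit m i.2 A}) := fun i _ =>
    (hη.inter (measurableSet_hit m i.1)).inter (measurableSet_hit m i.2)
  have h1 : ∑ κ ∈ W, prob (D ∩ {A | Hit m κ A}) ≤ a * prob D + (1 / a) *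
      ∑ i ∈ W ×ˢ W, prob (η ∩ {A | Hit m i.1 A} ∩ {A | Hit m i.2 A}) := by
    rw [sum_prob_eq W (fun κ => D ∩ {A | Hit m κ A}) hDm, sum_prob_eq (W ×ˢ W)
      (fun i => η ∩ {A | Hit m i.1 A} ∩ {A | Hit m i.2 A}) hPm, prob_eq_integral hD,
      ← integral_const_mul, ← integral_add ((integrable_const a).indicator hD)
        ((integrable_count (W ×ˢ W) _ hPm).const_mul _)]
    refine integral_mono (integrable_count W _ hDm) (((integrable_const a).indicator hD).add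
        ((integrable_count (W ×ˢ W) _ hPm).const_mul _)) fun B => ?_
    by_cases hB : B ∈ D
    · simp only [Set.indicator_of_mem hB]
      have e1 : W.filter (fun κ => B ∈ D ∩ {A | Hit m κ A}) = W.filter (fun κ => Hit m κ B) := by
        apply Finset.filter_congr
        intro κ _
        exact ⟨fun h => h.2, fun h => ⟨hB, h⟩⟩
      have e2 : (W ×ˢ W).filter (fun i => B ∈ η ∩ {A | Hit m i.1 A} ∩ {A | Hit m i.2 A}) =
          (W.filter (fun κ => Hit m κ B)) ×ˢ (W.filter (fun κ => Hit m κ B)) := by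
        ext i
        simp only [Finset.mem_filter, Finset.mem_product, Set.mem_inter_iff, Set.mem_ofPred_eq]
        constructor
        · rintro ⟨⟨g1, g2⟩, ⟨-, g3⟩, g4⟩
          exact ⟨⟨g1, g3⟩, g2, g4⟩
        · rintro ⟨⟨g1, g3⟩, g2, g4⟩
          exact ⟨⟨g1, g2⟩, ⟨hDη hB, g3⟩, g4⟩
      have e5 : ((W.filter (fun κ => B ∈ D ∩ {A | Hit m κ A})).card : ℝ) ≤ a + 1 / a *
          ((W ×ˢ W).filter (fun i => B ∈ η ∩ {A | Hit m i.1 A} ∩ {A | Hit m i.2 A})).card := by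
        rw [e1, e2, Finset.card_product]
        push_cast
        generalize ((W.filter (fun κ => Hit m κ B)).card : ℝ) = x
        have e3 : a + 1 / a * (x * x) - x = ((x - a / 2) ^ 2 + 3 / 4 * a ^ 2) / a := by
          field_simp
          ring
        have e4 : 0 ≤ ((x - a / 2) ^ 2 + 3 / 4 * a ^ 2) / a := by positivity
        linarith
      convert e5
      rfl
    · simp only [Set.indicator_of_notMem hB]
      have e1 : W.filter (fun κ => B ∈ D ∩ {A | Hit m κ A}) = ∅ := by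
        rw [Finset.filter_eq_empty_iff]
        intro κ _ h
        exact hB h.1
      have e5 : ((W.filter (fun κ => B ∈ D ∩ {A | Hit m κ A})).card : ℝ) ≤ 0 + 1 / a *
          ((W ×ˢ W).filter (fun i => B ∈ η ∩ {A | Hit m i.1 A} ∩ {A | Hit m i.2 A})).card := by
        rw [e1]
        have : (0 : ℝ) ≤ 1 / a := by positivity
        simp only [Finset.card_empty, Nat.cast_zero]
        positivity
      convert e5
      rfl
  refine h1.trans ?_
  have h2 : ∑ i ∈ W ×ˢ W, prob (η ∩ {A | Hit m i.1 A} ∩ {A | Hit m i.2 A}) ≤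
      ∑ i ∈ W ×ˢ W, (((1 / 2 : ℝ) ^ m) ^ 2 * prob η +
        if i.1 = i.2 then (1 / 2 : ℝ) ^ m * prob η else 0) := by
    refine Finset.sum_le_sum fun i hi => ?_
    rw [Finset.mem_product] at hi
    have hη0 := prob_nonneg η
    by_cases hne : i.1 = i.2
    · rw [if_pos hne]
      have h3 : prob (η ∩ {A | Hit m i.1 A} ∩ {A | Hit m i.2 A}) ≤ prob (η ∩ {A | Hit m i.1 A}) :=
        prob_mono Set.inter_subset_left
      rw [prob_hit_inter hη m i.1 (hinv i.1 hi.1)] at h3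
      have : 0 ≤ ((1 / 2 : ℝ) ^ m) ^ 2 * prob η := by positivity
      linarith
    · rw [if_neg hne, prob_hit_hit hη m hne (hinv i.1 hi.1) (hinv i.2 hi.2)]
      apply le_of_eq
      ring
  have h3 : ∑ i ∈ W ×ˢ W, (((1 / 2 : ℝ) ^ m) ^ 2 * prob η +
        if i.1 = i.2 then (1 / 2 : ℝ) ^ m * prob η else 0) =
      ((W.card * (1 / 2 : ℝ) ^ m) ^ 2 + W.card * (1 / 2 : ℝ) ^ m) * prob η := by
    rw [Finset.sum_add_distrib, Finset.sum_const, Finset.card_product, Finset.sum_product]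
    have h4 : ∀ x ∈ W, ∑ y ∈ W, (if x = y then (1 / 2 : ℝ) ^ m * prob η else 0) =
        (1 / 2 : ℝ) ^ m * prob η := by
      intro x hx
      rw [Finset.sum_ite_eq, if_pos hx]
    rw [Finset.sum_congr rfl h4, Finset.sum_const]
    simp only [nsmul_eq_mul]
    push_cast
    ring
  rw [h3] at h2
  have h5 : (0 : ℝ) ≤ 1 / a := by positivity
  have h6 := mul_le_mul_of_nonneg_left h2 h5
  rw [← mul_assoc] at h6
  linarith

open scoped Classical in
theorem flow {K : Set (List Bool)} (hK : K.Finite) {Z E η : Set Oracle} (hZ : Loc K Z)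
    (hE : Loc K E) (hη : Loc K η) (hZη : Z ⊆ η) (hZE : ∀ B ∈ Z, B ∉ E)
    {ι : Type*} (X : Finset ι) (W : ι → Finset Cand) {n m : ℕ} (hn : 1 ≤ n) (hnm : n ≤ m)
    (hcard : ∀ x ∈ X, (W x).card = 2 ^ n)
    (hdis : ∀ x ∈ X, ∀ y ∈ X, x ≠ y → Disjoint (W x) (W y))
    (hWK : ∀ x ∈ X, ∀ κ ∈ W x, ∀ l < m, pos κ.1 l κ.2 ∈ K)
    (hη' : ∀ x ∈ X, ∀ h ⊆ W x, ∀ B, plant (allSpots m h) B ∈ η ↔ B ∈ η)
    (hδ : prob (η \ Z) ≤ 1 / 4096 * prob η) (hμ : 2 ^ m ≤ X.card * 2 ^ n) (ρ : ℝ) (hρ : 0 ≤ ρ)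
    (hcore : ∀ x ∈ X, ∀ B ∈ Z, B ∈ NoHit m (W x) →
      2 ^ n ≤ 2 * ((W x).filter (fun κ => plant (allSpots m {κ}) B ∈ Z)).card →
      ρ * (2 ^ n) ^ 2 ≤ ((((W x).powersetCard 2).filter
        (fun h => plant (allSpots m h) B ∈ E)).card : ℝ))
    (k : ℕ)
    (hin : ∀ A ∈ E, (X.filter (fun x => ∃ h ∈ (W x).powersetCard 2, ∃ B, B ∉ E ∧
      plant (allSpots m h) B = A)).card ≤ k)
    (hpos : 0 < prob η) : X.card * (1 / 8 * ρ) * (2 ^ n) ^ 2 ≤ k * (2 ^ m) ^ 2 := by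
  have hZm := measurableSet_of_loc hK hZ
  have hEm := measurableSet_of_loc hK hE
  have hηm := measurableSet_of_loc hK hη
  have hηp := prob_nonneg η
  have hN0 : (0 : ℝ) < 2 ^ n := by positivity
  have hM0 : (0 : ℝ) < 2 ^ m := by positivity
  have hDm : MeasurableSet (η \ Z) := hηm.diff hZm
  have hone : ∀ x ∈ X, ∀ κ ∈ W x, ∀ B, plant (spots m κ) B ∈ η ↔ B ∈ η := by
    intro x hx κ hκ B
    rw [← allSpots_singleton]
    exact hη' x hx {κ} (Finset.singleton_subset_iff.2 hκ) B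
  obtain ⟨G, hGdef⟩ : ∃ G : ι → Set Oracle, ∀ x, G x = {B | B ∈ η ∩ NoHit m (W x) ∧
      2 * ((W x).filter (fun κ => plant (allSpots m {κ}) B ∈ Z)).card < 2 ^ n} :=
    ⟨_, fun _ => rfl⟩
  obtain ⟨U, hUdef⟩ : ∃ U : ι → Set Oracle, ∀ x, U x = {B | B ∈ Z ∩ NoHit m (W x) ∧
      2 ^ n ≤ 2 * ((W x).filter (fun κ => plant (allSpots m {κ}) B ∈ Z)).card} :=
    ⟨_, fun _ => rfl⟩
  have hNl : ∀ x ∈ X, Loc K (NoHit m (W x)) := fun x hx => loc_noHit (hWK x hx)
  have hcount : ∀ (x : ι) (A A' : Oracle), (∀ u ∈ K, A u = A' u) →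
      (W x).filter (fun κ => plant (allSpots m {κ}) A ∈ Z) =
        (W x).filter (fun κ => plant (allSpots m {κ}) A' ∈ Z) := by
    intro x A A' hA
    apply Finset.filter_congr
    intro κ _
    exact loc_plant hZ _ A A' hA
  have hGm : ∀ x ∈ X, MeasurableSet (G x) := by
    intro x hx
    have hGl : Loc K (G x) := by
      intro A A' hA
      have h1 := hcount x A A' hA
      simp only [hGdef, Set.mem_ofPred_eq, h1]
      exact and_congr_left fun _ => (M2.Loc.inter hη (hNl x hx)) A A' hA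
    exact measurableSet_of_loc hK hGl
  have hUm : ∀ x ∈ X, MeasurableSet (U x) := by
    intro x hx
    have hUl : Loc K (U x) := by
      intro A A' hA
      have h1 := hcount x A A' hA
      simp only [hUdef, Set.mem_ofPred_eq, h1]
      exact and_congr_left fun _ => (M2.Loc.inter hZ (hNl x hx)) A A' hA
    exact measurableSet_of_loc hK hUl
  -- A: no hit
  have hA : ∀ x ∈ X, 1 / 4 * prob η ≤ prob (η ∩ NoHit m (W x)) := by
    intro x hx
    have h1 := prob_noHit_aux hηm m (W x) (hone x hx)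
    have h2 := sat_ge hn 1
    rw [h1, hcard x hx]
    rw [pow_one, one_mul] at h2
    have h3 : (1 - (1 / 2 : ℝ) ^ n) ^ 2 ^ n ≤ (1 - (1 / 2 : ℝ) ^ m) ^ 2 ^ n := by
      have h4 : (1 / 2 : ℝ) ^ m ≤ (1 / 2 : ℝ) ^ n :=
        pow_le_pow_of_le_one (by norm_num) (by norm_num) hnm
      have h5 : (1 / 2 : ℝ) ^ n ≤ 1 := pow_le_one₀ (by norm_num) (by norm_num)
      apply pow_le_pow_left₀
      · linarith
      · linarith
    rw [mul_comm]
    exact mul_le_mul_of_nonneg_left (h2.trans h3) hηp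
  -- B: Markov
  have hB : ∀ x ∈ X, 2 ^ n * prob (G x) ≤ 2 * 2 ^ m *
      ∑ κ ∈ W x, prob ((η \ Z) ∩ {A | Hit m κ A}) := by
    intro x hx
    obtain ⟨F, hF⟩ : ∃ F : Cand → Set Oracle, ∀ κ, F κ =
        plant (allSpots m {κ}) ⁻¹' (η \ Z) ∩ NoHit m (W x) := ⟨_, fun _ => rfl⟩
    have hFm : ∀ κ ∈ W x, MeasurableSet (F κ) := fun κ _ => by
      rw [hF]
      exact ((measurable_plant _) hDm).inter (measurableSet_of_loc hK (hNl x hx))
    have h1 := le_sum_prob (W x) F hFm (hGm x hx) (2 ^ n / 2) (fun B hB => by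
      rw [hGdef] at hB
      have h2 : (W x).card ≤ ((W x).filter (fun κ => plant (allSpots m {κ}) B ∈ Z)).card +
          ((W x).filter (fun κ => B ∈ F κ)).card := by
        rw [← Finset.card_filter_add_card_filter_not (s := W x)
          (fun κ => plant (allSpots m {κ}) B ∈ Z)]
        refine Nat.add_le_add_left (Finset.card_le_card ?_) _
        intro κ hκ
        rw [Finset.mem_filter] at hκ ⊢
        refine ⟨hκ.1, ?_⟩
        rw [hF]
        exact ⟨⟨(hη' x hx {κ} (Finset.singleton_subset_iff.2 hκ.1) B).2 hB.1.1, hκ.2⟩, hB.1.2⟩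
      rw [hcard x hx] at h2
      have h3 := hB.2
      have h4 : 2 ^ n ≤ 2 * ((W x).filter (fun κ => B ∈ F κ)).card := by omega
      have h5 : ((2 ^ n : ℕ) : ℝ) ≤ ((2 * ((W x).filter (fun κ => B ∈ F κ)).card : ℕ) : ℝ) :=
        Nat.cast_le.2 h4
      push_cast at h5
      have h6 : (2 : ℝ) ^ n / 2 ≤ (((W x).filter (fun κ => B ∈ F κ)).card : ℝ) := by linarith
      convert h6)
    have h2 : ∑ κ ∈ W x, prob (F κ) ≤ 2 ^ m * ∑ κ ∈ W x, prob ((η \ Z) ∩ {A | Hit m κ A}) := by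
      rw [Finset.mul_sum]
      refine Finset.sum_le_sum fun κ hκ => ?_
      have h4 := prob_plant_noHit_le hDm m (Finset.singleton_subset_iff.2 hκ)
      rw [Finset.card_singleton, pow_one] at h4
      rw [hF]
      refine h4.trans (mul_le_mul_of_nonneg_left (prob_mono ?_) hM0.le)
      rintro A ⟨g1, g2⟩
      exact ⟨g1, (g2 κ hκ).2 (Finset.mem_singleton_self κ)⟩
    have h3 : 2 ^ n / 2 * prob (G x) ≤ 2 ^ m * ∑ κ ∈ W x, prob ((η \ Z) ∩ {A | Hit m κ A}) :=
      h1.trans h2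
    linarith
  -- all blocks
  obtain ⟨WA, hWA⟩ : ∃ WA : Finset Cand, WA = X.biUnion W := ⟨_, rfl⟩
  have hWAc : WA.card = X.card * 2 ^ n := by
    rw [hWA, Finset.card_biUnion (fun x hx y hy hne => hdis x hx y hy hne),
      Finset.sum_congr rfl hcard, Finset.sum_const, smul_eq_mul]
  have hWAs : ∑ x ∈ X, ∑ κ ∈ W x, prob ((η \ Z) ∩ {A | Hit m κ A}) =
      ∑ κ ∈ WA, prob ((η \ Z) ∩ {A | Hit m κ A}) := by
    rw [hWA, Finset.sum_biUnion]
    intro x hx y hy hne
    exact hdis x hx y hy hne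
  obtain ⟨μ, hμd⟩ : ∃ μ : ℝ, μ = X.card * 2 ^ n * (1 / 2 : ℝ) ^ m := ⟨_, rfl⟩
  have hhalf : (1 / 2 : ℝ) ^ m * 2 ^ m = 1 := by
    rw [← mul_pow]
    norm_num
  have hμ1 : 1 ≤ μ := by
    have h1 : ((2 ^ m : ℕ) : ℝ) ≤ ((X.card * 2 ^ n : ℕ) : ℝ) := Nat.cast_le.2 hμ
    push_cast at h1
    have h2 : (0 : ℝ) < (1 / 2 : ℝ) ^ m := by positivity
    calc (1 : ℝ) = 2 ^ m * (1 / 2 : ℝ) ^ m := by rw [mul_comm]; exact hhalf.symm
      _ ≤ (X.card * 2 ^ n) * (1 / 2 : ℝ) ^ m := mul_le_mul_of_nonneg_right h1 h2.le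
      _ = μ := hμd.symm
  have hR : ∑ κ ∈ WA, prob ((η \ Z) ∩ {A | Hit m κ A}) ≤ 3 / 64 * μ * prob η := by
    have h1 := sum_hit_le hDm hηm Set.sdiff_subset m WA (fun κ hκ B => by
      rw [hWA, Finset.mem_biUnion] at hκ
      obtain ⟨x, hx, hκ⟩ := hκ
      exact hone x hx κ hκ B) (a := 64 * μ) (by positivity)
    have h2 : (WA.card : ℝ) * (1 / 2 : ℝ) ^ m = μ := by
      rw [hWAc, hμd]
      push_cast
      ring
    rw [h2] at h1
    have h3 : 1 / (64 * μ) * (μ ^ 2 + μ) * prob η ≤ 1 / 32 * μ * prob η := by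
      apply mul_le_mul_of_nonneg_right _ hηp
      have h4 : 1 / (64 * μ) * (μ ^ 2 + μ) = (μ + 1) / 64 := by
        field_simp
      rw [h4]
      linarith
    have h5 : 64 * μ * prob (η \ Z) ≤ 64 * μ * (1 / 4096 * prob η) :=
      mul_le_mul_of_nonneg_left hδ (by positivity)
    linarith
  have hGs : ∑ x ∈ X, prob (G x) ≤ X.card * (3 / 32 * prob η) := by
    have h1 : 2 ^ n * ∑ x ∈ X, prob (G x) ≤ 2 * 2 ^ m * (3 / 64 * μ * prob η) := by
      rw [Finset.mul_sum]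
      refine (Finset.sum_le_sum hB).trans ?_
      rw [← Finset.mul_sum, hWAs]
      exact mul_le_mul_of_nonneg_left hR (by positivity)
    have h2 : 2 * 2 ^ m * (3 / 64 * μ * prob η) =
        2 ^ n * (X.card * (3 / 32 * prob η)) := by
      rw [hμd]
      calc 2 * 2 ^ m * (3 / 64 * (X.card * 2 ^ n * (1 / 2 : ℝ) ^ m) * prob η) =
            ((1 / 2 : ℝ) ^ m * 2 ^ m) * (2 ^ n * (X.card * (3 / 32 * prob η))) := by ring
        _ = _ := by rw [hhalf, one_mul]
    rw [h2] at h1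
    exact le_of_mul_le_mul_left h1 hN0
  -- C: good oracles
  have hC : ∀ x ∈ X, 1 / 4 * prob η ≤ prob (U x) + prob (G x) + 1 / 4096 * prob η := by
    intro x hx
    have h1 : η ∩ NoHit m (W x) ⊆ (U x ∪ G x) ∪ (η \ Z) := by
      rintro B ⟨hB1, hB2⟩
      by_cases h2 : B ∈ Z
      · left
        by_cases h3 : 2 ^ n ≤ 2 * ((W x).filter (fun κ => plant (allSpots m {κ}) B ∈ Z)).card
        · left
          rw [hUdef]
          exact ⟨⟨h2, hB2⟩, h3⟩
        · right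
          rw [hGdef]
          exact ⟨⟨hB1, hB2⟩, not_le.1 h3⟩
      · exact Or.inr ⟨hB1, h2⟩
    have h2 := (prob_mono h1).trans (prob_union_le _ _)
    have h3 := prob_union_le (U x) (G x)
    have h4 := hA x hx
    linarith
  have hCs : X.card * (1 / 8 * prob η) ≤ ∑ x ∈ X, prob (U x) := by
    have h1 := Finset.sum_le_sum hC
    rw [Finset.sum_add_distrib, Finset.sum_add_distrib, Finset.sum_const, Finset.sum_const,
      nsmul_eq_mul, nsmul_eq_mul] at h1
    have h2 : 0 ≤ (X.card : ℝ) * prob η := by positivity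
    linarith
  -- D: two hits
  obtain ⟨Fx, hFx⟩ : ∃ Fx : ι → Set Oracle, ∀ x, Fx x = {A | A ∈ E ∩ η ∧
      ∃ h ∈ (W x).powersetCard 2, ∃ B, B ∉ E ∧ plant (allSpots m h) B = A} := ⟨_, fun _ => rfl⟩
  have hWh : ∀ x ∈ X, ∀ h ∈ (W x).powersetCard 2, ∀ κ ∈ h, ∀ l < m, pos κ.1 l κ.2 ∈ K := by
    intro x hx h hh κ hκ l hl
    exact hWK x hx κ ((Finset.mem_powersetCard.1 hh).1 hκ) l hl
  have hSl : ∀ x ∈ X, ∀ h ∈ (W x).powersetCard 2, Loc K (From (E ∩ η) E m h) := fun x hx h hh =>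
    loc_from (M2.Loc.inter hE hη) hE m (hWh x hx h hh)
  have hFxm : ∀ x ∈ X, MeasurableSet (Fx x) := by
    intro x hx
    have hFxl : Loc K (Fx x) := by
      have key : ∀ A A' : Oracle, (∀ u ∈ K, A u = A' u) → A ∈ Fx x → A' ∈ Fx x := by
        intro A A' hA hA1
        rw [hFx] at hA1 ⊢
        obtain ⟨h1, h, hh, B, hB⟩ := hA1
        have h2 : A ∈ From (E ∩ η) E m h := ⟨h1, B, hB⟩
        obtain ⟨h3, B', hB'⟩ := ((hSl x hx h hh) A A' hA).1 h2
        exact ⟨h3, h, hh, B', hB'⟩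
      exact fun A A' hA => ⟨key A A' hA, key A' A fun u hu => (hA u hu).symm⟩
    exact measurableSet_of_loc hK hFxl
  have hD : ∀ x ∈ X, ρ * (2 ^ n) ^ 2 * prob (U x) ≤ (2 ^ m) ^ 2 * prob (Fx x) := by
    intro x hx
    obtain ⟨H, hH⟩ : ∃ H : Finset Cand → Set Oracle, ∀ h, H h =
        {B | B ∈ Z ∩ NoHit m (W x) ∧ plant (allSpots m h) B ∈ E} := ⟨_, fun _ => rfl⟩
    have hHm : ∀ h ∈ (W x).powersetCard 2, MeasurableSet (H h) := fun h _ => by
      rw [hH]
      exact (hZm.inter (measurableSet_of_loc hK (hNl x hx))).inter ((measurable_plant _) hEm)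
    have hD1 : ρ * (2 ^ n) ^ 2 * prob (U x) ≤ ∑ h ∈ (W x).powersetCard 2, prob (H h) := by
      apply le_sum_prob _ H hHm (hUm x hx)
      intro B hB
      rw [hUdef] at hB
      refine (hcore x hx B hB.1.1 hB.1.2 hB.2).trans ?_
      refine Nat.cast_le.2 (Finset.card_le_card ?_)
      intro h hh
      simp only [Finset.mem_filter] at hh ⊢
      refine ⟨hh.1, ?_⟩
      rw [hH]
      exact ⟨hB.1, hh.2⟩
    have hD2 : ∀ h ∈ (W x).powersetCard 2, prob (H h) ≤
        (2 ^ m) ^ 2 * prob (From (E ∩ η) E m h ∩ HitSet m (W x) h) := by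
      intro h hh
      have hh' := Finset.mem_powersetCard.1 hh
      have h1 := prob_plant_noHit_le (measurableSet_of_loc hK (hSl x hx h hh)) m hh'.1
      rw [hh'.2] at h1
      refine le_trans (prob_mono ?_) h1
      rw [hH]
      rintro B ⟨⟨hB1, hB2⟩, hB3⟩
      exact ⟨⟨⟨hB3, (hη' x hx h hh'.1 B).2 (hZη hB1)⟩, B, hZE B hB1, rfl⟩, hB2⟩
    have hD3 : ∑ h ∈ (W x).powersetCard 2, prob (From (E ∩ η) E m h ∩ HitSet m (W x) h) ≤
        prob (Fx x) := by
      apply sum_hitSet_le (hFxm x hx) m (W x)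
      · intro h hh
        exact (Finset.mem_powersetCard.1 hh).1
      · intro h hh
        exact measurableSet_of_loc hK (hSl x hx h hh)
      · rintro h hh A ⟨h1, h2⟩
        rw [hFx]
        exact ⟨h1, h, hh, h2⟩
    refine hD1.trans ((Finset.sum_le_sum hD2).trans ?_)
    rw [← Finset.mul_sum]
    exact mul_le_mul_of_nonneg_left hD3 (by positivity)
  -- E: all blocks
  have hsum : ∑ x ∈ X, prob (Fx x) ≤ k * prob (E ∩ η) := by
    apply sum_prob_le' X Fx hFxm (hEm.inter hηm)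
    · intro x hx A hA
      rw [hFx] at hA
      exact hA.1
    · rintro A ⟨hA, hA'⟩
      have h1 := hin A hA
      refine le_trans ?_ (Nat.cast_le.2 h1)
      apply Nat.cast_le.2
      apply Finset.card_le_card
      intro x hx
      simp only [Finset.mem_filter, hFx] at hx ⊢
      exact ⟨hx.1, hx.2.2⟩
  have h2 : prob (E ∩ η) ≤ prob η := prob_mono Set.inter_subset_right
  have h3 : (k : ℝ) * prob (E ∩ η) ≤ k * prob η := mul_le_mul_of_nonneg_left h2 (by positivity)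
  have h4 : ρ * (2 ^ n) ^ 2 * ∑ x ∈ X, prob (U x) ≤ (2 ^ m) ^ 2 * (k * prob η) := by
    rw [Finset.mul_sum]
    refine (Finset.sum_le_sum hD).trans ?_
    rw [← Finset.mul_sum]
    exact mul_le_mul_of_nonneg_left (hsum.trans h3) (by positivity)
  have h5 : ρ * (2 ^ n) ^ 2 * (X.card * (1 / 8 * prob η)) ≤ (2 ^ m) ^ 2 * (k * prob η) :=
    (mul_le_mul_of_nonneg_left hCs (by positivity)).trans h4
  have h6 : X.card * (1 / 8 * ρ) * (2 ^ n) ^ 2 * prob η ≤ k * (2 ^ m) ^ 2 * prob η := by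
    linarith
  exact le_of_mul_le_mul_right h6 hpos

end Pool.Agent.TH93.U2
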