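import Pool.Agent.H822R2.ESY.Main
import Pool.Agent.H620R2.GaugeQ.Q8
import Pool.Agent.W938.QM.Hybrid
import Pool.Agent.TH93.U2.Flow

/-!
The language with rare hits, and the core of the proof: a separator of the pair built by majority
vote, against quantum circuits. (This adapts `Pool.Agent.H822R2.ESY.Core`.)
-/

set_option autoImplicit false

namespace Pool.Agent.TH93.U2

open MeasureTheory Pool.Agent.NPC Pool.Agent.H628R3.RO
open Pool.Agent.H822R2.ESY (join strs mem_strs card_strs Wx mem_Wx card_Wx EE Cert plant_pair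
  cover turan)
open Pool.Agent.H620R2.Gauge (Gate accProb circAct initSt rd)
open Pool.Agent.W938.QM (wq wq_nonneg sum_wq_le circ_diff Cov qn numQ circ_norm accS)

/-- the number of strings of a candidate of the block of a string of length `n` -/
def mm (n : ℕ) : ℕ := n + 2 * (n / 5)

/-- the language: the oracle encodes a string `w` of the length of `x`, which is a witness for
`x` if the `mm |x|` strings of the candidate `xw` are all in the oracle -/
def LL (A : Oracle) : Set (List Bool) :=
  {x | ∃ w : List Bool, w.length = x.length ∧ Hit (mm x.length) (0, x ++ w) A}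

theorem mem_LL {A : Oracle} {x : List Bool} {n : ℕ} (hx : x.length = n) :
    x ∈ LL A ↔ ∃ κ ∈ Wx n x, Hit (mm n) κ A := by
  constructor
  · rintro ⟨w, hw, hh⟩
    rw [hx] at hw hh
    exact ⟨_, mem_Wx.2 ⟨w, hw, rfl⟩, hh⟩
  · rintro ⟨κ, hκ, hh⟩
    obtain ⟨w, hw, rfl⟩ := mem_Wx.1 hκ
    exact ⟨w, by rw [hw, hx], by rw [hx]; exact hh⟩

/-- An algorithm: `a true O x` says that `x` is clearly accepted relative to `O`, and `a false O x`
says that `x` is clearly rejected. -/
abbrev Test : Type := Bool → Oracle → List Bool → Prop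

/-- the algorithm is right about `x` with oracle `(A ⊕ Bf) ⊕ S` -/
def Right (Bf : Oracle) (a : Test) (A S : Oracle) (x : List Bool) : Prop :=
  (x ∈ LL A → a true (join (join A Bf) S) x) ∧
    (x ∉ LL A → a false (join (join A Bf) S) x)

/-- the oracles for which nothing is wrong up to length `b`, and the algorithm is right about
all strings of length `n` for all separators -/
def Good (MB MC : Oracle → List Bool → Prop) (Bf : Oracle)
    (a : Test) (t₀ : ℕ) (S₀ : List (List Bool)) (n b : ℕ) : Set Oracle :=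
  {A | (∀ q : List Bool, q.length ≤ b → ¬ (MB A q ∧ MC A q)) ∧
    (∀ q : List Bool, q.length ≤ t₀ → (MB A q → ofL S₀ q = true) ∧ (MC A q → ofL S₀ q = false)) ∧
    ∀ S : Oracle, (∀ q : List Bool, q.length ≤ t₀ → S q = ofL S₀ q) →
      (∀ q : List Bool, q.length ≤ b → (MB A q → S q = true) ∧ (MC A q → S q = false)) →
        ∀ x : List Bool, x.length = n → Right Bf a A S x}

/-- The initial state has norm one. -/
theorem init_norm (d : ℕ) : ∑ s : Fin d → Bool, initSt d s ^ 2 = 1 := by
  unfold initSt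
  rw [Finset.sum_eq_single (fun _ => false)]
  · simp
  · intro s _ hs
    rw [if_neg hs]
    norm_num
  · intro h
    exact absurd (Finset.mem_univ _) h

/-- A part of a circuit: the change of the probability of acceptance is bounded by means of the
weight of the strings on which the two oracles differ. -/
theorem acc_change {m : ℕ} (A A' : Oracle) (T : Finset (List Bool)) (l : List Gate)
    (hT : Cov m A A' T l) (ψ : (Fin m → Bool) → ℝ) (R : ℝ) (hR : (numQ l : ℝ) ≤ R) :
    |accS A' l ψ - accS A l ψ| ≤ 24 * R * ∑ z ∈ T, wq A l ψ z + (∑ s, ψ s ^ 2) / 6 := by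
  have h3 := circ_diff A A' T l hT ψ
  have hn1 := circ_norm A l ψ
  have hn2 := circ_norm A' l ψ
  have h4 : |accS A' l ψ - accS A l ψ| ≤
      ∑ s, (6 * (circAct A l ψ s - circAct A' l ψ s) ^ 2 +
        (circAct A l ψ s ^ 2 + circAct A' l ψ s ^ 2) / 12) := by
    unfold accS
    rw [← Finset.sum_sub_distrib]
    refine (Finset.abs_sum_le_sum_abs _ _).trans (Finset.sum_le_sum fun s _ => ?_)
    set u := circAct A l ψ s
    set v := circAct A' l ψ s
    have h5 : |v ^ 2 - u ^ 2| ≤ 6 * (u - v) ^ 2 + (u ^ 2 + v ^ 2) / 12 := by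
      rw [abs_le]
      constructor
      · nlinarith [sq_nonneg (12 * (v - u) + (u + v)), sq_nonneg (u - v)]
      · nlinarith [sq_nonneg (12 * (v - u) - (u + v)), sq_nonneg (u - v)]
    have h6 : 0 ≤ 6 * (u - v) ^ 2 + (u ^ 2 + v ^ 2) / 12 := by positivity
    split_ifs
    · exact h5
    · simpa using h6
  rw [Finset.sum_add_distrib, ← Finset.mul_sum, ← Finset.sum_div, Finset.sum_add_distrib, hn1,
    hn2] at h4
  set W := ∑ z ∈ T, wq A l ψ z with hW
  have hW0 : 0 ≤ W := Finset.sum_nonneg fun z _ => wq_nonneg A l ψ z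
  have h7 : (numQ l : ℝ) * (4 * W) ≤ R * (4 * W) := mul_le_mul_of_nonneg_right hR (by positivity)
  linarith

/-- If the probability of acceptance of a circuit changes by at least `1/3`, then the circuit asks
the strings on which the two oracles differ with a large weight. (The state has a real and an
imaginary part.) -/
theorem weight_far {m : ℕ} (A A' : Oracle) (T : Finset (List Bool)) (l : List Gate)
    (hT : Cov m A A' T l) (ψ φ : (Fin m → Bool) → ℝ)
    (hψ : ∑ s, ψ s ^ 2 + ∑ s, φ s ^ 2 = 1)
    (h1 : 1 / 3 ≤ |(accS A' l ψ + accS A' l φ) - (accS A l ψ + accS A l φ)|)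
    (R : ℝ) (hR0 : 0 < R) (hR : (numQ l : ℝ) ≤ R) :
    1 / (144 * R) ≤ ∑ z ∈ T, (wq A l ψ z + wq A l φ z) := by
  have h2 := acc_change A A' T l hT ψ R hR
  have h3 := acc_change A A' T l hT φ R hR
  have h4 : |(accS A' l ψ + accS A' l φ) - (accS A l ψ + accS A l φ)| ≤
      |accS A' l ψ - accS A l ψ| + |accS A' l φ - accS A l φ| := by
    have h5 : (accS A' l ψ + accS A' l φ) - (accS A l ψ + accS A l φ) =
      (accS A' l ψ - accS A l ψ) + (accS A' l φ - accS A l φ) := by ring
    rw [h5]
    exact abs_add_le _ _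
  rw [Finset.sum_add_distrib]
  set W := ∑ z ∈ T, wq A l ψ z with hW
  set W' := ∑ z ∈ T, wq A l φ z with hW'
  rw [div_le_iff₀ (by positivity)]
  nlinarith

/-- The algorithm asks few questions: for every oracle `O` which rejects `x`, there are weights of
the strings, of total weight at most `R`, such that an oracle can only accept `x` if the strings
where it differs from `O` have a large weight. -/
def Soft (R : ℕ) (a : Test) (x : List Bool) : Prop :=
  ∀ O : Oracle, a false O x → ∃ (Z : Finset (List Bool)) (w : List Bool → ℝ), (∀ z, 0 ≤ w z) ∧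
    ∑ z ∈ Z, w z ≤ R ∧ ∀ O' : Oracle, a true O' x →
      1 / (144 * (R : ℝ)) ≤ ∑ z ∈ Z.filter (fun z => O z ≠ O' z), w z

/-- the strings which a circuit can ask -/
theorem exists_cov (l : List Gate) (m : ℕ) : ∃ Z : Finset (List Bool), ∀ O O' : Oracle,
    Cov m O O' (Z.filter (fun z => O z ≠ O' z)) l := by
  obtain ⟨N, hN⟩ : ∃ N : ℕ, ∀ q k, (Sum.inr (true, q, k) : Gate) ∈ l → q.length ≤ N := by
    induction l with
    | nil => exact ⟨0, fun q k h => by simp at h⟩
    | cons g l ih =>
      obtain ⟨N, hN⟩ := ih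
      rcases g with i | ⟨b', q', k'⟩
      · refine ⟨N, fun q k h => ?_⟩
        rcases List.mem_cons.1 h with h | h
        · exact absurd h (by simp)
        · exact hN q k h
      · refine ⟨max N q'.length, fun q k h => ?_⟩
        rcases List.mem_cons.1 h with h | h
        · have h1 : (true, q, k) = (b', q', k') := Sum.inr.inj h
          have h2 : q = q' := congrArg (fun p => p.2.1) h1
          rw [h2]
          exact le_max_right _ _
        · exact (hN q k h).trans (le_max_left _ _)
  refine ⟨(finite_length_le N).toFinset, fun O O' q k hq s hk hne => ?_⟩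
  rw [Finset.mem_filter]
  refine ⟨?_, hne⟩
  rw [Set.Finite.mem_toFinset, Set.mem_ofPred_eq]
  have h1 : (qn q k s).length = q.length := by
    unfold qn
    rw [dif_pos hk, List.length_map]
  rw [h1]
  exact hN q k hq

/-- quantum algorithms ask few questions -/
theorem soft_quantum {a : Test} {l : List Gate} {m : ℕ} {x : List Bool} {R : ℕ}
    (hR0 : 1 ≤ R) (hR : numQ l ≤ R)
    (ha : ∀ O : Oracle, a false O x → ∃ ψ φ : (Fin m → Bool) → ℝ,
      ∑ s, ψ s ^ 2 + ∑ s, φ s ^ 2 = 1 ∧ ∀ O' : Oracle, a true O' x →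
        1 / 3 ≤ |(accS O' l ψ + accS O' l φ) - (accS O l ψ + accS O l φ)|) : Soft R a x := by
  intro O hO
  obtain ⟨ψ, φ, h1, h2⟩ := ha O hO
  obtain ⟨Z, hZ⟩ := exists_cov l m
  refine ⟨Z, fun z => wq O l ψ z + wq O l φ z,
    fun z => add_nonneg (wq_nonneg _ _ _ _) (wq_nonneg _ _ _ _), ?_, fun O' h3 => ?_⟩
  · have h4 := sum_wq_le O Z l ψ
    have h5 := sum_wq_le O Z l φ
    have h6 : (numQ l : ℝ) ≤ R := by exact_mod_cast hR
    rw [Finset.sum_add_distrib]
    calc _ ≤ (numQ l : ℝ) * (∑ s, ψ s ^ 2 + ∑ s, φ s ^ 2) := by linarith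
      _ = numQ l := by rw [h1, mul_one]
      _ ≤ R := h6
  · convert weight_far O O' _ l (hZ O O') ψ φ h1 (h2 O' h3) R (by exact_mod_cast hR0)
      (by exact_mod_cast hR)

theorem indep_bound {MB MC : Oracle → List Bool → Prop} {Bf : Oracle}
    {a : Test} {t₀ : ℕ}
    {S₀ : List (List Bool)} {n b P R : ℕ} (hR0 : 1 ≤ R)
    (hMB : ∀ q : List Bool, q.length ≤ b → Cert P (fun A => MB A q))
    (hMC : ∀ q : List Bool, q.length ≤ b → Cert P (fun A => MC A q))
    {x : List Bool} (hx : x.length = n) (hR : Soft R a x)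
    {B : Oracle} (hB : B ∈ Good MB MC Bf a t₀ S₀ n b) (hno : B ∈ NoHit (mm n) (Wx n x))
    {I : Finset Cand} (hIW : I ⊆ Wx n x)
    (hI : ∀ κ ∈ I, plant (allSpots (mm n) {κ}) B ∈ Good MB MC Bf a t₀ S₀ n b)
    (hind : ∀ h ∈ I.powersetCard 2, plant (allSpots (mm n) h) B ∉ EE MB MC b) :
    I.card ≤ 144 * ((2 * P + 1) * R ^ 2) + 3 * P := by
  classical
  by_contra hcon
  push Not at hcon
  obtain ⟨pl, hpl⟩ : ∃ pl : Cand → Oracle, ∀ κ, pl κ = plant (allSpots (mm n) {κ}) B :=
    ⟨_, fun _ => rfl⟩
  -- the minority is small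
  have hmin : ∀ q : List Bool, q.length ≤ b → (I.filter (fun κ => MB (pl κ) q)).card ≤ 2 * P ∨
      (I.filter (fun κ => MC (pl κ) q)).card ≤ 2 * P := by
    intro q hq
    have h1 : ∀ κ, MB (pl κ) q → ∃ T : Finset Cand, T.card ≤ P ∧
        ∀ κ' ∈ Wx n x, κ' ∉ T → MB (plant (allSpots (mm n) {κ'}) (pl κ)) q :=
      fun κ hκ => (hMB q hq).touch (Wx n x) (mm n) hκ
    have h2 : ∀ κ, MC (pl κ) q → ∃ T : Finset Cand, T.card ≤ P ∧
        ∀ κ' ∈ Wx n x, κ' ∉ T → MC (plant (allSpots (mm n) {κ'}) (pl κ)) q :=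
      fun κ hκ => (hMC q hq).touch (Wx n x) (mm n) hκ
    choose! T hT using h1
    choose! T' hT' using h2
    refine cover _ _ T T' P (fun κ hκ => (hT κ (Finset.mem_filter.1 hκ).2).1)
      (fun κ hκ => (hT' κ (Finset.mem_filter.1 hκ).2).1) ?_
    intro κ hκ κ' hκ'
    rw [Finset.mem_filter] at hκ hκ'
    by_contra hc
    push Not at hc
    by_cases he : κ = κ'
    · subst he
      have h3 := (hI κ hκ.1).1 q hq
      rw [← hpl] at h3
      exact h3 ⟨hκ.2, hκ'.2⟩
    · apply hind {κ, κ'}
      · rw [Finset.mem_powersetCard]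
        refine ⟨?_, Finset.card_pair he⟩
        intro u hu
        rcases Finset.mem_insert.1 hu with rfl | hu
        · exact hκ.1
        · rw [Finset.mem_singleton.1 hu]
          exact hκ'.1
      · refine ⟨q, hq, ?_, ?_⟩
        · rw [← plant_pair, ← hpl]
          exact (hT κ hκ.2).2 κ' (hIW hκ'.1) hc.1
        · rw [Finset.pair_comm, ← plant_pair, ← hpl]
          exact (hT' κ' hκ'.2).2 κ (hIW hκ.1) hc.2
  -- the separator by majority
  obtain ⟨S, hS⟩ : ∃ S : Oracle, ∀ q, S q = if q.length ≤ t₀ then ofL S₀ q else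
      decide (2 * P < (I.filter (fun κ => MB (pl κ) q)).card) := ⟨_, fun _ => rfl⟩
  have hSt : ∀ q : List Bool, q.length ≤ t₀ → S q = ofL S₀ q := fun q hq => by
    rw [hS, if_pos hq]
  have hSsep : ∀ q : List Bool, q.length ≤ b → (MB B q → S q = true) ∧
      (MC B q → S q = false) := by
    intro q hq
    by_cases hqt : q.length ≤ t₀
    · rw [hSt q hqt]
      exact hB.2.1 q hqt
    · rw [hS, if_neg hqt]
      constructor
      · intro h
        obtain ⟨T, hT, hT'⟩ := (hMB q hq).touch (Wx n x) (mm n) h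
        rw [decide_eq_true_iff]
        have h1 : I \ T ⊆ I.filter (fun κ => MB (pl κ) q) := by
          intro κ hκ
          rw [Finset.mem_sdiff] at hκ
          rw [Finset.mem_filter, hpl]
          exact ⟨hκ.1, hT' κ (hIW hκ.1) hκ.2⟩
        have h2 := Finset.card_le_card h1
        have h3 := Finset.le_card_sdiff T I
        omega
      · intro h
        obtain ⟨T, hT, hT'⟩ := (hMC q hq).touch (Wx n x) (mm n) h
        rw [decide_eq_false_iff_not]
        have h1 : I \ T ⊆ I.filter (fun κ => MC (pl κ) q) := by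
          intro κ hκ
          rw [Finset.mem_sdiff] at hκ
          rw [Finset.mem_filter, hpl]
          exact ⟨hκ.1, hT' κ (hIW hκ.1) hκ.2⟩
        have h2 := Finset.card_le_card h1
        have h3 := Finset.le_card_sdiff T I
        have h4 := hmin q hq
        omega
  have hRt : a false (join (join B Bf) S) x := by
    refine (hB.2.2 S hSt hSsep x hx).2 ?_
    rw [mem_LL hx]
    rintro ⟨κ, hκ, hh⟩
    exact hno κ hκ hh
  -- the separators after planting
  obtain ⟨Sκ, hSκ⟩ : ∃ Sκ : Cand → Oracle, ∀ κ q, Sκ κ q =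
      if t₀ < q.length ∧ q.length ≤ b then
        (if MB (pl κ) q then true else if MC (pl κ) q then false else S q) else S q :=
    ⟨_, fun _ _ => rfl⟩
  have hRκ : ∀ κ ∈ I, a true (join (join (pl κ) Bf) (Sκ κ)) x := by
    intro κ hκ
    have h1 := hI κ hκ
    rw [← hpl] at h1
    refine (h1.2.2 (Sκ κ) ?_ ?_ x hx).1 ?_
    · intro q hq
      rw [hSκ, if_neg (by omega), hSt q hq]
    · intro q hq
      by_cases hqt : q.length ≤ t₀
      · rw [hSκ, if_neg (by omega), hSt q hqt]
        exact h1.2.1 q hqt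
      · rw [hSκ, if_pos ⟨by omega, hq⟩]
        constructor
        · intro h2
          rw [if_pos h2]
        · intro h2
          rw [if_neg (fun h3 => h1.1 q hq ⟨h3, h2⟩), if_pos h2]
    · rw [mem_LL hx]
      refine ⟨κ, hIW hκ, ?_⟩
      rw [hpl]
      exact M2.hit_plant_self (Finset.mem_singleton_self κ) B
  -- few candidates are bad for a question
  have hbad : ∀ q : List Bool, (I.filter (fun κ => Sκ κ q ≠ S q)).card ≤ 2 * P := by
    intro q
    by_cases hq : t₀ < q.length ∧ q.length ≤ b
    · have hqt : ¬ q.length ≤ t₀ := by omega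
      by_cases h1 : 2 * P < (I.filter (fun κ => MB (pl κ) q)).card
      · have h2 : S q = true := by
          rw [hS, if_neg hqt]
          exact decide_eq_true h1
        have h3 : (I.filter (fun κ => MC (pl κ) q)).card ≤ 2 * P := by
          have := hmin q hq.2
          omega
        refine (Finset.card_le_card ?_).trans h3
        intro κ hκ
        rw [Finset.mem_filter] at hκ ⊢
        refine ⟨hκ.1, ?_⟩
        by_contra h4
        apply hκ.2
        rw [hSκ, if_pos hq]
        by_cases h5 : MB (pl κ) q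
        · rw [if_pos h5, h2]
        · rw [if_neg h5, if_neg h4]
      · have h2 : S q = false := by
          rw [hS, if_neg hqt]
          exact decide_eq_false h1
        refine (Finset.card_le_card ?_).trans (not_lt.1 h1)
        intro κ hκ
        rw [Finset.mem_filter] at hκ ⊢
        refine ⟨hκ.1, ?_⟩
        by_contra h4
        apply hκ.2
        rw [hSκ, if_pos hq, if_neg h4]
        by_cases h5 : MC (pl κ) q
        · rw [if_pos h5, h2]
        · rw [if_neg h5]
    · have h1 : I.filter (fun κ => Sκ κ q ≠ S q) = ∅ := by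
        rw [Finset.filter_eq_empty_iff]
        intro κ _ h2
        apply h2
        rw [hSκ, if_neg hq]
      rw [h1]
      simp
  have hbadB : ∀ v : List Bool, (I.filter (fun κ => pl κ v ≠ B v)).card ≤ 1 := by
    intro v
    rw [Finset.card_le_one]
    have key : ∀ κ, pl κ v ≠ B v → v ∈ spots (mm n) κ := by
      intro κ hκ
      rw [hpl] at hκ
      by_contra h1
      apply hκ
      unfold plant
      rw [if_neg]
      rwa [M2.allSpots_singleton]
    intro κ hκ κ' hκ'
    rw [Finset.mem_filter] at hκ hκ'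
    exact M2.spots_disjoint (key κ hκ.2) (key κ' hκ'.2)
  have hbadO : ∀ z : List Bool, (I.filter (fun κ => join (join B Bf) S z ≠
      join (join (pl κ) Bf) (Sκ κ) z)).card ≤ 2 * P + 1 := by
    intro z
    match z with
    | [] =>
      rw [Finset.filter_false_of_mem (fun κ _ h => h rfl)]
      simp
    | true :: q =>
      refine le_trans (Finset.card_le_card ?_) ((hbad q).trans (Nat.le_succ _))
      intro κ hκ
      rw [Finset.mem_filter] at hκ ⊢
      exact ⟨hκ.1, fun h => hκ.2 h.symm⟩
    | [false] =>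
      rw [Finset.filter_false_of_mem (fun κ _ h => h rfl)]
      simp
    | false :: true :: v =>
      rw [Finset.filter_false_of_mem (fun κ _ h => h rfl)]
      simp
    | false :: false :: v =>
      refine le_trans (Finset.card_le_card ?_) ((hbadB v).trans (by omega))
      intro κ hκ
      rw [Finset.mem_filter] at hκ ⊢
      exact ⟨hκ.1, fun h => hκ.2 h.symm⟩
  -- the questions of the algorithm
  obtain ⟨Z, w, hw0, hwR, hfar'⟩ := hR (join (join B Bf) S) hRt
  have hfar : ∀ κ ∈ I, 1 / (144 * (R : ℝ)) ≤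
      ∑ z ∈ Z.filter (fun z => join (join B Bf) S z ≠ join (join (pl κ) Bf) (Sκ κ) z), w z := by
    intro κ hκ
    convert hfar' (join (join (pl κ) Bf) (Sκ κ)) (hRκ κ hκ)
  have h1 : (I.card : ℝ) * (1 / (144 * (R : ℝ))) ≤ (2 * P + 1) * R := by
    calc (I.card : ℝ) * (1 / (144 * (R : ℝ))) = ∑ _κ ∈ I, 1 / (144 * (R : ℝ)) := by
          rw [Finset.sum_const, nsmul_eq_mul]
      _ ≤ ∑ κ ∈ I, ∑ z ∈ Z.filter (fun z => join (join B Bf) S z ≠
            join (join (pl κ) Bf) (Sκ κ) z), w z := Finset.sum_le_sum hfar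
      _ = ∑ z ∈ Z, ∑ κ ∈ I, if join (join B Bf) S z ≠ join (join (pl κ) Bf) (Sκ κ) z then
            w z else 0 := by
          rw [Finset.sum_comm]
          refine Finset.sum_congr rfl fun κ _ => ?_
          rw [Finset.sum_filter]
      _ ≤ ∑ z ∈ Z, (2 * P + 1) * w z := by
          refine Finset.sum_le_sum fun z _ => ?_
          rw [← Finset.sum_filter, Finset.sum_const, nsmul_eq_mul]
          refine mul_le_mul_of_nonneg_right ?_ (hw0 z)
          exact_mod_cast hbadO z
      _ = (2 * P + 1) * ∑ z ∈ Z, w z := by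
          rw [Finset.mul_sum]
      _ ≤ (2 * P + 1) * R := mul_le_mul_of_nonneg_left hwR (by positivity)
  have hR' : (0 : ℝ) < R := by exact_mod_cast hR0
  have h2 : (I.card : ℝ) ≤ 144 * ((2 * P + 1) * R ^ 2) := by
    rw [mul_one_div, div_le_iff₀ (by positivity)] at h1
    calc (I.card : ℝ) ≤ (2 * P + 1) * R * (144 * R) := h1
      _ = 144 * ((2 * P + 1) * R ^ 2) := by ring
  have h3 : I.card ≤ 144 * ((2 * P + 1) * R ^ 2) := by exact_mod_cast h2
  omega

end Pool.Agent.TH93.U2
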