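import Pool.Agent.H822R2.ESY.Final
import Pool.Agent.W938.QM.Defs

/-!
# Languages with few witnesses, and classes of subexponential time relative to an oracle

(Continues `Pool.Agent.H628R3.RO.Defs`, `Pool.Agent.H822R2.ESY.Final`,
`Pool.Agent.H620R2.GaugeQ.Defs` and `Pool.Agent.W938.QM.Defs`: oracles, polynomial time relative to
an oracle, `NP`, `UP`, `BPP`, quantum circuits, quantum witnesses.)
-/

set_option autoImplicit false

namespace Pool.Agent.TH93.U2

open Pool.Agent.NPC Pool.Agent.H628R3.RO
open Pool.Agent.H620R2.Gauge (Gate accProb)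
open Pool.Agent.W938.QM (accW)

/-- `L` is in `NP` relative to `A`, with a verifier that accepts at most `k` witnesses for every
string. For `k = 1` this is `UP`. -/
def IsUPle (k : ℕ) (A : Oracle) (L : Set (List Bool)) : Prop :=
  ∃ (V : List Bool → List Bool) (p : Polynomial ℕ), IsFP A V ∧
    (∀ x, x ∈ L ↔ ∃ w : List Bool, w.length ≤ p.eval x.length ∧ V (pairBits x w) = [true]) ∧
    ∀ (x : List Bool) (T : Finset (List Bool)),
      (∀ w ∈ T, w.length ≤ p.eval x.length ∧ V (pairBits x w) = [true]) → T.card ≤ k

/-- The string `x` together with `⌊2 ^ (|x| ^ c)⌋` ones. Polynomial time for `pad c x` is time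
`(|x| + 2 ^ (|x| ^ c)) ^ O(1)` for `x`. -/
noncomputable def pad (c : ℝ) (x : List Bool) : List Bool :=
  pairBits x (List.replicate ⌊(2 : ℝ) ^ ((x.length : ℝ) ^ c)⌋₊ true)

/-- Bounded-error quantum time `2 ^ O(n ^ c)` relative to the oracle `O`: the circuit for the input
`x` is computed in time polynomial in `|x| + 2 ^ (|x| ^ c)`, and in particular it has at most
`(|x| + 2 ^ (|x| ^ c)) ^ O(1)` gates. -/
def IsBQSub (c : ℝ) (O : Oracle) (L : Set (List Bool)) : Prop :=
  ∃ C : List Bool → List Unit × List Gate, PolyTime (fun z => bits (C z)) ∧ ∀ x : List Bool,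
    (x ∈ L → 2 / 3 ≤ accProb O (C (pad c x))) ∧ (x ∉ L → accProb O (C (pad c x)) ≤ 1 / 3)

/-- The circuit `C` is a quantum verifier which accepts (if `b` is true) or rejects (if `b` is
false): if `C` has the gates `C.2` and the number `m` is the length of `C.1`, then the circuit is
applied to a witness `ψ`, a state of `m` qubits, and to `m` ancillas; it accepts if it accepts some
witness with probability at least `2/3`, and it rejects if it accepts every witness with
probability at most `1/3`. -/
def QWit (O : Oracle) (C : List Unit × List Gate) : Bool → Prop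
  | true => ∃ ψ : (Fin C.1.length → Bool) → ℂ, ∑ t, ‖ψ t‖ ^ 2 = 1 ∧
      2 / 3 ≤ accW O C.2 C.1.length ψ
  | false => ∀ ψ : (Fin C.1.length → Bool) → ℂ, ∑ t, ‖ψ t‖ ^ 2 = 1 →
      accW O C.2 C.1.length ψ ≤ 1 / 3

/-- The language `L` is in `QMA` relative to `O`: the circuit `C x`, computed in polynomial time,
checks a quantum witness for `x`. -/
def IsQMA (O : Oracle) (L : Set (List Bool)) : Prop :=
  ∃ C : List Bool → List Unit × List Gate, PolyTime (fun z => bits (C z)) ∧ ∀ x : List Bool,
    (x ∈ L → QWit O (C x) true) ∧ (x ∉ L → QWit O (C x) false)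

/-- The same with time `2 ^ O(n ^ c)` (for the computation of the circuit, its number of gates, and
the length of the quantum witness). -/
def IsQMASub (c : ℝ) (O : Oracle) (L : Set (List Bool)) : Prop :=
  ∃ C : List Bool → List Unit × List Gate, PolyTime (fun z => bits (C z)) ∧ ∀ x : List Bool,
    (x ∈ L → QWit O (C (pad c x)) true) ∧ (x ∉ L → QWit O (C (pad c x)) false)

/-- The probability that, for a uniformly random string `w` of length `m`, there is a message `y`
of length at most `m` such that `V` accepts `⟨w, ⟨y, x⟩⟩`. -/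
noncomputable def amPr (V : List Bool → List Bool) (m : ℕ) (x : List Bool) : ℝ :=
  (Nat.card {w : Fin m → Bool // ∃ y : List Bool, y.length ≤ m ∧
    V (pairBits (List.ofFn w) (pairBits y x)) = [true]} : ℝ) / 2 ^ m

/-- The language `L` is in `AM` relative to `O`: Arthur sends a random string `w`, Merlin answers
with a message `y`, and `V` accepts or rejects `⟨w, ⟨y, x⟩⟩`. -/
def IsAM (O : Oracle) (L : Set (List Bool)) : Prop :=
  ∃ (V : List Bool → List Bool) (p : Polynomial ℕ), IsFP O V ∧ ∀ x : List Bool,
    (x ∈ L → 2 / 3 ≤ amPr V (p.eval x.length) x) ∧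
    (x ∉ L → amPr V (p.eval x.length) x ≤ 1 / 3)

/-- The same with messages of length, and computations of time, `2 ^ O(n ^ c)`. -/
def IsAMSub (c : ℝ) (O : Oracle) (L : Set (List Bool)) : Prop :=
  ∃ (V : List Bool → List Bool) (p : Polynomial ℕ), IsFP O V ∧ ∀ x : List Bool,
    (x ∈ L → 2 / 3 ≤ amPr V (p.eval (pad c x).length) (pad c x)) ∧
    (x ∉ L → amPr V (p.eval (pad c x).length) (pad c x) ≤ 1 / 3)

end Pool.Agent.TH93.U2
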