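import Pool.Agent.TH93.U2.Final

/-!
The oracle `O = (A ⊕ B) ⊕ S`.
-/

set_option autoImplicit false

namespace Pool.Agent.TH93.U2

open MeasureTheory Pool.Agent.NPC
open Pool.Agent.H628R3.RO hiding strs mem_strs
open Pool.Agent.H822R2.ESY (join strs mem_strs card_strs IsP IsBPP Mem acc)
open Pool.Agent.H620R2.Gauge (Gate accProb IsBQP)

/-- For almost every oracle `A` there are `L` and `S`, such that everything holds for the oracle
`O = (A ⊕ B) ⊕ S`. -/
theorem ends (B : Oracle) : ∀ᵐ A ∂randomOracle, ∃ (L : Set (List Bool)) (S : Oracle),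
    IsUPle 2 A L ∧
    (∀ K : Set (List Bool), IsUP (join A B) K → IsP (join (join A B) S) K) ∧
    (∀ K₀ K₁ : Set (List Bool), IsPair (IsNP (join A B)) K₀ K₁ → ∃ T : Oracle,
      (∀ q ∈ K₀, T q = true) ∧ (∀ q ∈ K₁, T q = false) ∧
      IsP (join (join A B) S) {q | T q = true} ∧
      ∀ F : List Bool → List Bool, IsFP (join (join A B) T) F → IsFP (join (join A B) S) F) ∧
    Hard (join (join A B) S) L := by
  filter_upwards [main B] with A hA
  obtain ⟨L, S, h1, h2, h3⟩ := hA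
  refine ⟨L, S, h1, fun K hK => ?_, fun K₀ K₁ hK => ?_, h3⟩
  · obtain ⟨K₀, K₁, g0, g1, gd, g⟩ := up_reduces' (join A B) K hK
    obtain ⟨l, hl⟩ := h2 K₀ K₁ ⟨isUP_isNP g0, isUP_isNP g1, gd⟩
    exact g S (code l) (poly_code l) (fun q hq => (hl q).1 hq) (fun q hq => (hl q).2 hq)
  · obtain ⟨l, hl⟩ := h2 K₀ K₁ hK
    exact ⟨fun q => S (code l q), fun q hq => (hl q).1 hq, fun q hq => (hl q).2 hq,
      isP_ask (join A B) S (poly_code l), fun F hF => isFP_recode (poly_code l) hF⟩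

end Pool.Agent.TH93.U2
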