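import Pool.Agent.TH93.U2.Tests

/-!
Almost every oracle, and the construction of the separators in stages. (This adapts
`Pool.Agent.H822R2.ESY.Main`.)
-/

set_option autoImplicit false

namespace Pool.Agent.TH93.U2

open MeasureTheory Pool.Agent.NPC
open Pool.Agent.H628R3.RO hiding strs mem_strs
open Pool.Agent.H822R2.ESY (join strs mem_strs card_strs Wx mem_Wx card_Wx EE Cert plant_pair
  cover turan Mem bnd bnd_spec cert_Mem loc_Mem Cert.mono exists_list acc cert_M)

theorem join_congr {A A' Bf : Oracle} {N : ℕ} (h : ∀ u : List Bool, u.length ≤ N → A u = A' u) :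
    ∀ u : List Bool, u.length ≤ N → join A Bf u = join A' Bf u := by
  intro u hu
  match u, hu with
  | [], _ => rfl
  | false :: v, hu =>
    simp only [List.length_cons] at hu
    exact h v (by omega)
  | true :: v, _ => rfl

theorem join2_congr {A A' Bf S S' : Oracle} {b : ℕ}
    (hA : ∀ u : List Bool, u.length ≤ b → A u = A' u)
    (hS : ∀ u : List Bool, u.length ≤ b → S u = S' u) (y : List Bool) (hy : y.length ≤ b) :
    join (join A Bf) S y = join (join A' Bf) S' y := by
  match y, hy with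
  | [], _ => rfl
  | [false], _ => rfl
  | false :: true :: v, _ => rfl
  | false :: false :: v, hy =>
    simp only [List.length_cons] at hy
    exact hA v (by omega)
  | true :: v, hy =>
    simp only [List.length_cons] at hy
    exact hS v (by omega)

theorem cert_MemB (Bf : Oracle) (V : Alg) (p : Polynomial ℕ) {b : ℕ} {q : List Bool}
    (hq : q.length ≤ b) :
    Cert (V.p.eval (2 * b + 1 + p.eval b)) (fun A => Mem V p (join A Bf) q) := by
  intro A hA
  obtain ⟨Q, hQ, hQ'⟩ := cert_Mem V p hq (join A Bf) hA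
  refine ⟨Q.image List.tail, Finset.card_image_le.trans hQ, fun A' hA' => hQ' _ fun u hu => ?_⟩
  match u, hu with
  | [], _ => rfl
  | false :: v, hu =>
    exact hA' v (Finset.mem_image.2 ⟨_, hu, rfl⟩)
  | true :: v, _ => rfl

theorem loc_MemB (Bf : Oracle) (V : Alg) (p : Polynomial ℕ) {b R : ℕ}
    (hR : (bnd V).eval (2 * b + 1 + p.eval b) ≤ R) {q : List Bool} (hq : q.length ≤ b) :
    Loc {u | u.length ≤ R} {A | Mem V p (join A Bf) q} := by
  intro A A' hA
  exact loc_Mem V p hR hq (join A Bf) (join A' Bf) (join_congr hA)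

/-! ## Finitely many pairs -/

/-- two verifiers with bounds for the lengths of the witnesses -/
abbrev Pr : Type := (Alg × Polynomial ℕ) × (Alg × Polynomial ℕ)

/-- one of the two verifiers -/
def sel : Bool → Pr → Alg × Polynomial ℕ
  | true, π => π.1
  | false, π => π.2

/-- the string that encodes the question `q` for the pair number `ℓ` -/
def code (l : ℕ) (q : List Bool) : List Bool := List.replicate l true ++ false :: q

theorem length_code (l : ℕ) (q : List Bool) : (code l q).length = l + 1 + q.length := by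
  unfold code
  rw [List.length_append, List.length_replicate, List.length_cons]
  omega

theorem code_inj : ∀ {l l' : ℕ} {q q' : List Bool}, code l q = code l' q' → l = l' ∧ q = q'
  | 0, 0, q, q', h => ⟨rfl, by simpa [code] using h⟩
  | 0, l' + 1, q, q', h => by simp [code, List.replicate_succ] at h
  | l + 1, 0, q, q', h => by simp [code, List.replicate_succ] at h
  | l + 1, l' + 1, q, q', h => by
    have h1 : code l q = code l' q' := by
      simpa [code, List.replicate_succ] using h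
    obtain ⟨h2, h3⟩ := code_inj h1
    exact ⟨by rw [h2], h3⟩

/-- the questions that are answered positively by one of the verifiers of a pair of the list -/
def MM (Bf : Oracle) (D : List (ℕ × Pr)) (s : Bool) (A : Oracle) (q : List Bool) : Prop :=
  ∃ d ∈ D, ∃ q' : List Bool, q = code d.1 q' ∧ Mem (sel s d.2).1 (sel s d.2).2 (join A Bf) q'

/-- membership has short certificates -/
def Tame (M : Oracle → List Bool → Prop) (P R : Polynomial ℕ) : Prop :=
  ∀ (b : ℕ) (q : List Bool), q.length ≤ b → Cert (P.eval b) (fun A => M A q) ∧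
    Loc {u | u.length ≤ R.eval b} {A | M A q}

theorem tame_MM (Bf : Oracle) (s : Bool) : ∀ D : List (ℕ × Pr), ∃ P R, Tame (MM Bf D s) P R
  | [] => by
    refine ⟨0, 0, fun b q _ => ⟨?_, ?_⟩⟩
    · rintro A ⟨d, hd, -⟩
      exact absurd hd (by simp)
    · refine loc_of_imp fun A A' _ => ?_
      rintro ⟨d, hd, -⟩
      exact absurd hd (by simp)
  | d :: D => by
    obtain ⟨P, R, h⟩ := tame_MM Bf s D
    obtain ⟨V, hV⟩ : ∃ V, V = (sel s d.2).1 := ⟨_, rfl⟩
    obtain ⟨p, hp⟩ : ∃ p, p = (sel s d.2).2 := ⟨_, rfl⟩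
    refine ⟨V.p.comp (Polynomial.C 2 * Polynomial.X + Polynomial.C 1 + p) + P,
      (bnd V).comp (Polynomial.C 2 * Polynomial.X + Polynomial.C 1 + p) + R, fun b q hq => ?_⟩
    simp only [Polynomial.eval_add, Polynomial.eval_C, Polynomial.eval_comp, Polynomial.eval_mul,
      Polynomial.eval_X]
    have hM : ∀ A, MM Bf (d :: D) s A q ↔
        (∃ q' : List Bool, q = code d.1 q' ∧ Mem V p (join A Bf) q') ∨ MM Bf D s A q := by
      intro A
      rw [hV, hp]
      unfold MM
      simp only [List.mem_cons, exists_eq_or_imp]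
    obtain ⟨h1, h2⟩ := h b q hq
    constructor
    · intro A hA
      rcases (hM A).1 hA with ⟨q', hq', hm⟩ | hm
      · have hq'b : q'.length ≤ b := by
          rw [hq', length_code] at hq
          omega
        obtain ⟨Q, hQ, hQ'⟩ := cert_MemB Bf V p hq'b A hm
        exact ⟨Q, hQ.trans (Nat.le_add_right _ _), fun A' hA' =>
          (hM A').2 (Or.inl ⟨q', hq', hQ' A' hA'⟩)⟩
      · obtain ⟨Q, hQ, hQ'⟩ := h1 A hm
        exact ⟨Q, hQ.trans (Nat.le_add_left _ _), fun A' hA' => (hM A').2 (Or.inr (hQ' A' hA'))⟩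
    · refine loc_of_imp fun A A' hA hm => ?_
      rcases (hM A).1 hm with ⟨q', hq', hm⟩ | hm
      · have hq'b : q'.length ≤ b := by
          rw [hq', length_code] at hq
          omega
        exact (hM A').2 (Or.inl ⟨q', hq', (loc_MemB Bf V p (Nat.le_add_right _ _) hq'b A A' hA).1 hm⟩)
      · refine (hM A').2 (Or.inr ((h2 A A' fun u hu => hA u ?_).1 hm))
        exact le_trans (b := R.eval b) hu (Nat.le_add_left _ _)

/-- the lengths up to which everything is controlled -/
def bb (r : ℕ → ℕ) (t₀ n : ℕ) : ℕ := t₀ + r n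

/-- the good oracles, for given algorithms -/
def GG (Bf : Oracle) (D : List (ℕ × Pr)) (a : Test) (r : ℕ → ℕ) (t₀ : ℕ)
    (S₀ : List (List Bool)) (n : ℕ) : Set Oracle :=
  Good (MM Bf D true) (MM Bf D false) Bf a t₀ S₀ n (bb r t₀ n)

section

variable {Bf : Oracle} {D : List (ℕ × Pr)} {a : Test} {r : ℕ → ℕ} (t₀ : ℕ)
    (S₀ : List (List Bool)) {P P' Q Q' : Polynomial ℕ}

/-- a bound for the lengths of all questions -/
def RR (r : ℕ → ℕ) (Q Q' : Polynomial ℕ) (t₀ n : ℕ) : ℕ :=
  Q.eval (bb r t₀ n) + Q'.eval (bb r t₀ n) + bb r t₀ n + (4 * n + 2)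

theorem aa_congr (ha : Fam a r) {n : ℕ} {A A' S S' : Oracle} {x : List Bool} (hx : x.length = n)
    (hA : ∀ u : List Bool, u.length ≤ bb r t₀ n → A u = A' u)
    (hS : ∀ u : List Bool, u.length ≤ bb r t₀ n → S u = S' u) (i : Bool) :
    a i (join (join A Bf) S) x ↔ a i (join (join A' Bf) S') x := by
  refine ha.loc _ _ x (fun y hy => ?_) i
  refine join2_congr hA hS y ?_
  rw [hx] at hy
  unfold bb
  omega

theorem loc_GG (ha : Fam a r) (h : Tame (MM Bf D true) P Q) (h' : Tame (MM Bf D false) P' Q')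
    (n : ℕ) : Loc {u | u.length ≤ RR r Q Q' t₀ n} (GG Bf D a r t₀ S₀ n) := by
  refine loc_Good (by unfold bb; omega) (fun q hq => M2.Loc.mono (h _ q hq).2 ?_)
    (fun q hq => M2.Loc.mono (h' _ q hq).2 ?_) ?_ ?_
  · intro u hu
    simp only [Set.mem_ofPred_eq] at hu ⊢
    unfold RR
    omega
  · intro u hu
    simp only [Set.mem_ofPred_eq] at hu ⊢
    unfold RR
    omega
  · intro i A A' S x hx hA
    refine aa_congr t₀ ha hx (fun u hu => hA u ?_) (fun _ _ => rfl) i
    unfold RR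
    omega
  · unfold RR
    omega

theorem key (ha : Fam a r) (h : Tame (MM Bf D true) P Q) (h' : Tame (MM Bf D false) P' Q') :
    ∃ n₀, ∀ n ≥ n₀, ∀ t < n, ∀ L : List (List Bool), 0 < prob (cyl t L) →
    1 / 4096 * prob (cyl t L) < prob (cyl t L \ (GG Bf D a r t₀ S₀ n ∩ cyl t L)) := by
  obtain ⟨bP, hbP⟩ : ∃ bP : Polynomial ℕ, bP = Polynomial.C t₀ + Polynomial.X := ⟨_, rfl⟩
  obtain ⟨PP, hPP⟩ : ∃ PP : Polynomial ℕ, PP = (P + P').comp bP := ⟨_, rfl⟩
  obtain ⟨sP, hsP⟩ : ∃ sP : Polynomial ℕ, sP = Polynomial.C 144 *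
    ((Polynomial.C 2 * PP + Polynomial.C 1) * Polynomial.X ^ 2) + Polynomial.C 3 * PP +
      Polynomial.C 1 := ⟨_, rfl⟩
  obtain ⟨n₀, hn₀⟩ := ha.small (Polynomial.C 256 * sP * (PP + Polynomial.C 1))
  refine ⟨max n₀ 1, fun n hn t ht L hpos => ?_⟩
  have h1 := hn₀ n (le_trans (le_max_left _ _) hn)
  have hn1 : 1 ≤ n := le_trans (le_max_right _ _) hn
  have ebP : bP.eval (r n) = bb r t₀ n := by
    rw [hbP]
    unfold bb
    simp only [Polynomial.eval_add, Polynomial.eval_C, Polynomial.eval_X]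
  obtain ⟨T, hT⟩ : ∃ T, T = P.eval (bb r t₀ n) + P'.eval (bb r t₀ n) := ⟨_, rfl⟩
  have ePP : PP.eval (r n) = T := by
    rw [hPP, hT, Polynomial.eval_comp, ebP, Polynomial.eval_add]
  obtain ⟨s, hs⟩ : ∃ s, s = 144 * ((2 * T + 1) * r n ^ 2) + 3 * T + 1 := ⟨_, rfl⟩
  have esP : sP.eval (r n) = s := by
    rw [hsP, hs]
    simp only [Polynomial.eval_add, Polynomial.eval_C, Polynomial.eval_mul, Polynomial.eval_pow,
      Polynomial.eval_X, ePP]
  simp only [Polynomial.eval_add, Polynomial.eval_C, Polynomial.eval_mul, esP, ePP] at h1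
  refine key_abs (P := T) (R := r n) (s := s)
    (RR := RR r Q Q' t₀ n) hn1 (by unfold bb; omega) (ha.pos n) ?_ ?_ ?_ ?_ ?_
    ?_ ?_ hs h1 ht L hpos
  · intro q hq
    exact (h _ q hq).1.mono (by rw [hT]; omega)
  · intro q hq
    exact (h' _ q hq).1.mono (by rw [hT]; omega)
  · intro q hq
    refine M2.Loc.mono (h _ q hq).2 ?_
    intro u hu
    simp only [Set.mem_ofPred_eq] at hu ⊢
    unfold RR
    omega
  · intro q hq
    refine M2.Loc.mono (h' _ q hq).2 ?_
    intro u hu
    simp only [Set.mem_ofPred_eq] at hu ⊢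
    unfold RR
    omega
  · intro x hx
    rw [← hx]
    exact ha.soft x
  · intro i A A' S x hx hA
    refine aa_congr t₀ ha hx (fun u hu => hA u ?_) (fun _ _ => rfl) i
    unfold RR
    omega
  · unfold RR
    omega

theorem ae_GG (Bf : Oracle) (D : List (ℕ × Pr)) (ha : Fam a r) (N₀ : ℕ) :
    ∀ᵐ A ∂randomOracle, ∃ n ≥ N₀, A ∉ GG Bf D a r t₀ S₀ n := by
  obtain ⟨P, Q, hP⟩ := tame_MM Bf true D
  obtain ⟨P', Q', hP'⟩ := tame_MM Bf false D
  have hm : ∀ n, MeasurableSet (GG Bf D a r t₀ S₀ n) := fun n =>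
    measurableSet_of_loc (finite_length_le _) (loc_GG t₀ S₀ ha hP hP' n)
  obtain ⟨T, hT⟩ : ∃ T : Set Oracle, T = ⋂ n, GG Bf D a r t₀ S₀ (N₀ + n) := ⟨_, rfl⟩
  have hI : MeasurableSet T := by
    rw [hT]
    exact MeasurableSet.iInter fun n => hm _
  have h0 : randomOracle T = 0 := by
    by_contra hne
    have hpos : 0 < prob T := ENNReal.toReal_pos hne (measure_ne_top _ _)
    obtain ⟨t, L, h1, h2⟩ := exists_cyl hI hpos (δ := 1 / 4096) (by norm_num)
    obtain ⟨n₀, hn₀⟩ := key t₀ S₀ ha hP hP'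
    obtain ⟨n, hn⟩ : ∃ n, n = N₀ + max n₀ (t + 1) := ⟨_, rfl⟩
    have h3 := hn₀ n (by have := le_max_left n₀ (t + 1); omega) t
      (by have := le_max_right n₀ (t + 1); omega) L h1
    have hcm : MeasurableSet (cyl t L) :=
      measurableSet_of_loc (finite_length_le t) (loc_cyl t L)
    have h4 : prob (cyl t L) = prob (cyl t L ∩ (GG Bf D a r t₀ S₀ n ∩ cyl t L)) +
        prob (cyl t L \ (GG Bf D a r t₀ S₀ n ∩ cyl t L)) := by
      unfold prob
      rw [measureReal_inter_add_sdiff ((hm n).inter hcm)]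
    have h5 : prob (T ∩ cyl t L) ≤
        prob (cyl t L ∩ (GG Bf D a r t₀ S₀ n ∩ cyl t L)) := by
      apply M2.prob_mono
      rintro A ⟨hA1, hA2⟩
      rw [hT] at hA1
      refine ⟨hA2, ?_, hA2⟩
      rw [hn]
      exact Set.mem_iInter.1 hA1 _
    linarith
  have h1 : ∀ᵐ A ∂randomOracle, A ∉ T := measure_eq_zero_iff_ae_notMem.1 h0
  filter_upwards [h1] with A hA
  rw [hT, Set.mem_iInter] at hA
  push Not at hA
  obtain ⟨n, hn⟩ := hA
  exact ⟨N₀ + n, by omega, hn⟩

end

theorem ae_all (Bf : Oracle) : ∀ᵐ A ∂randomOracle, ∀ (D : List (ℕ × Pr)) (i : Idx) (t₀ : ℕ)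
    (S₀ : List (List Bool)) (N₀ : ℕ), ∃ n ≥ N₀, A ∉ GG Bf D (aa i) (rr i) t₀ S₀ n := by
  simp only [ae_all_iff]
  intro D i t₀ S₀ N₀
  exact ae_GG t₀ S₀ Bf D (fam_rr i) N₀

/-! ## The stages -/

/-- the state of the construction after a stage: `S` is fixed up to the length `t`, and it separates
all pairs of the list `D` -/
structure St (A Bf : Oracle) where
  /-- the length up to which the oracle is fixed -/
  t : ℕ
  /-- the oracle -/
  S : Oracle
  /-- the pairs, with their numbers -/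
  D : List (ℕ × Pr)
  dis : ∀ q : List Bool, ¬ (MM Bf D true A q ∧ MM Bf D false A q)
  sep : ∀ q : List Bool, (MM Bf D true A q → S q = true) ∧ (MM Bf D false A q → S q = false)
  num : ∀ d ∈ D, d.1 ≤ t

section

variable {A Bf : Oracle}

/-- the two sets given by the pair are disjoint -/
def Disj (O : Oracle) (π : Pr) : Prop :=
  ∀ q : List Bool, ¬ (Mem π.1.1 π.1.2 O q ∧ Mem π.2.1 π.2.2 O q)

theorem step_pair (σ : St A Bf) (π : Pr) : ∃ σ' : St A Bf, σ.t ≤ σ'.t ∧ σ.D ⊆ σ'.D ∧
    (∀ q : List Bool, q.length ≤ σ.t → σ'.S q = σ.S q) ∧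
      (Disj (join A Bf) π → ∃ l, (l, π) ∈ σ'.D) := by
  classical
  by_cases hπ : Disj (join A Bf) π
  · obtain ⟨l, hl⟩ : ∃ l, l = σ.t + 1 := ⟨_, rfl⟩
    have hM : ∀ (s : Bool) (q : List Bool), MM Bf ((l, π) :: σ.D) s A q ↔
        (∃ q' : List Bool, q = code l q' ∧ Mem (sel s π).1 (sel s π).2 (join A Bf) q') ∨
          MM Bf σ.D s A q := by
      intro s q
      unfold MM
      simp only [List.mem_cons, exists_eq_or_imp]
    have hne : ∀ (s : Bool) (q' : List Bool), ¬ MM Bf σ.D s A (code l q') := by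
      rintro s q' ⟨d, hd, q'', h1, -⟩
      have h2 := (code_inj h1).1
      have h3 := σ.num d hd
      omega
    obtain ⟨S', hS'⟩ : ∃ S' : Oracle, ∀ q, S' q =
        if ∃ q' : List Bool, q = code l q' then
          decide (∃ q' : List Bool, q = code l q' ∧ Mem (sel true π).1 (sel true π).2 (join A Bf) q')
        else σ.S q := ⟨_, fun _ => rfl⟩
    refine ⟨⟨l, S', (l, π) :: σ.D, ?_, ?_, ?_⟩, by simp only []; omega,
      fun d hd => List.mem_cons_of_mem _ hd, ?_, fun _ => ⟨l, List.mem_cons_self⟩⟩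
    · intro q hq
      rw [hM, hM] at hq
      rcases hq with ⟨⟨q', h1, h2⟩ | h1, ⟨q'', h3, h4⟩ | h3⟩
      · rw [h1] at h3
        have h5 := (code_inj h3).2
        rw [← h5] at h4
        exact hπ q' ⟨h2, h4⟩
      · rw [h1] at h3
        exact hne _ _ h3
      · rw [h3] at h1
        exact hne _ _ h1
      · exact σ.dis q ⟨h1, h3⟩
    · intro q
      rw [hM, hM, hS']
      constructor
      · rintro (⟨q', h1, h2⟩ | h1)
        · rw [if_pos ⟨q', h1⟩]
          exact decide_eq_true ⟨q', h1, h2⟩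
        · rw [if_neg]
          · exact (σ.sep q).1 h1
          · rintro ⟨q', rfl⟩
            exact hne _ _ h1
      · rintro (⟨q', h1, h2⟩ | h1)
        · rw [if_pos ⟨q', h1⟩]
          refine decide_eq_false ?_
          rintro ⟨q'', h3, h4⟩
          rw [h1] at h3
          have h5 := (code_inj h3).2
          rw [← h5] at h4
          exact hπ q' ⟨h4, h2⟩
        · rw [if_neg]
          · exact (σ.sep q).2 h1
          · rintro ⟨q', rfl⟩
            exact hne _ _ h1
    · intro d hd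
      rcases List.mem_cons.1 hd with rfl | hd
      · exact le_rfl
      · have := σ.num d hd
        show d.1 ≤ l
        omega
    · intro q hq
      show S' q = σ.S q
      rw [hS', if_neg]
      rintro ⟨q', rfl⟩
      rw [length_code] at hq
      omega
  · exact ⟨σ, le_rfl, fun _ h => h, fun _ _ => rfl, fun h => absurd h hπ⟩

theorem step_test {N₀ : ℕ} (hA : ∀ (D : List (ℕ × Pr)) (i : Idx) (t₀ : ℕ) (S₀ : List (List Bool)),
      ∃ n ≥ N₀, A ∉ GG Bf D (aa i) (rr i) t₀ S₀ n) (σ : St A Bf) (i : Idx) :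
    ∃ σ' : St A Bf, σ.t < σ'.t ∧ σ.D ⊆ σ'.D ∧
      (∀ q : List Bool, q.length ≤ σ.t → σ'.S q = σ.S q) ∧
      ∃ x : List Bool, N₀ ≤ x.length ∧
        ∀ S'' : Oracle, (∀ q : List Bool, q.length ≤ σ'.t → S'' q = σ'.S q) →
          ¬ Right Bf (aa i) A S'' x := by
  classical
  obtain ⟨S₀, hS₀⟩ := exists_list σ.t σ.S
  obtain ⟨n, hnN, hn⟩ := hA σ.D i σ.t S₀
  unfold GG Good at hn
  rw [Set.mem_ofPred_eq, not_and, not_and] at hn
  have h1 := hn (fun q _ => σ.dis q) (fun q hq => by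
    rw [hS₀ q hq]
    exact σ.sep q)
  push Not at h1
  obtain ⟨S₁, h2, h3, x, hx, h4⟩ := h1
  have hbt : σ.t ≤ bb (rr i) σ.t n := by
    unfold bb
    omega
  obtain ⟨S', hS'⟩ : ∃ S' : Oracle, ∀ q, S' q = if q.length ≤ bb (rr i) σ.t n then S₁ q else
      σ.S q := ⟨_, fun _ => rfl⟩
  refine ⟨⟨max (σ.t + 1) (bb (rr i) σ.t n), S', σ.D, σ.dis, ?_, ?_⟩,
    lt_of_lt_of_le (Nat.lt_succ_self σ.t) (le_max_left _ _), fun _ h => h, ?_, x,
    by rw [hx]; exact hnN, ?_⟩
  · intro q
    by_cases hq : q.length ≤ bb (rr i) σ.t n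
    · rw [hS', if_pos hq]
      exact h3 q hq
    · rw [hS', if_neg hq]
      exact σ.sep q
  · intro d hd
    have h5 := σ.num d hd
    have h6 := le_max_left (σ.t + 1) (bb (rr i) σ.t n)
    omega
  · intro q hq
    show S' q = σ.S q
    rw [hS', if_pos (hq.trans hbt), h2 q hq, hS₀ q hq]
  · intro S'' hS'' h5
    apply h4
    have h6 : ∀ j, (aa i j (join (join A Bf) S'') x ↔ aa i j (join (join A Bf) S₁) x) := by
      intro j
      refine aa_congr σ.t (fam_rr i) hx (fun _ _ => rfl) ?_ j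
      intro q hq
      rw [hS'' q (hq.trans (le_max_right _ _))]
      show S' q = S₁ q
      rw [hS', if_pos hq]
    unfold Right at h5 ⊢
    rw [← h6, ← h6]
    exact h5

/-- the separators -/
theorem exists_sep {N₀ : ℕ} (hA : ∀ (D : List (ℕ × Pr)) (i : Idx) (t₀ : ℕ)
      (S₀ : List (List Bool)), ∃ n ≥ N₀, A ∉ GG Bf D (aa i) (rr i) t₀ S₀ n) :
    ∃ S : Oracle, (∀ π : Pr, Disj (join A Bf) π → ∃ l : ℕ, ∀ q : List Bool,
        (Mem π.1.1 π.1.2 (join A Bf) q → S (code l q) = true) ∧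
        (Mem π.2.1 π.2.2 (join A Bf) q → S (code l q) = false)) ∧
      ∀ i : Idx, ∃ x : List Bool, N₀ ≤ x.length ∧ ¬ Right Bf (aa i) A S x := by
  classical
  have hneA : Nonempty Alg := ⟨⟨fun _ => [], Pool.Agent.H622R2.polyTime_of_poly_list
    (NPC.Poly.const _), 0⟩⟩
  obtain ⟨e, he⟩ := exists_surjective_nat Idx
  obtain ⟨g, hg⟩ := exists_surjective_nat Pr
  have hstep : ∀ (k : ℕ) (σ : St A Bf), ∃ σ' : St A Bf, σ.t < σ'.t ∧ σ.D ⊆ σ'.D ∧
      (∀ q : List Bool, q.length ≤ σ.t → σ'.S q = σ.S q) ∧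
      (Disj (join A Bf) (g k) → ∃ l, (l, g k) ∈ σ'.D) ∧
      ∃ x : List Bool, N₀ ≤ x.length ∧ ∀ S'' : Oracle,
        (∀ q : List Bool, q.length ≤ σ'.t → S'' q = σ'.S q) → ¬ Right Bf (aa (e k)) A S'' x := by
    intro k σ
    obtain ⟨σ₁, h1, h2, h3, h4⟩ := step_pair σ (g k)
    obtain ⟨σ₂, h5, h6, h7, h8⟩ := step_test hA σ₁ (e k)
    refine ⟨σ₂, by omega, fun d hd => h6 (h2 hd), fun q hq => ?_, fun h => ?_, h8⟩
    · rw [h7 q (hq.trans h1), h3 q hq]
    · obtain ⟨l, hl⟩ := h4 h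
      exact ⟨l, h6 hl⟩
  choose nx hnx using hstep
  have hinit : St A Bf := ⟨0, fun _ => false, [], by
      rintro q ⟨⟨d, hd, -⟩, -⟩
      exact absurd hd (by simp), by
      intro q
      constructor
      · rintro ⟨d, hd, -⟩
        exact absurd hd (by simp)
      · rintro ⟨d, hd, -⟩
        exact absurd hd (by simp), by
      intro d hd
      exact absurd hd (by simp)⟩
  obtain ⟨st, hst0, hst⟩ : ∃ st : ℕ → St A Bf, st 0 = hinit ∧ ∀ k, st (k + 1) = nx k (st k) :=
    ⟨fun k => Nat.rec hinit (fun k s => nx k s) k, rfl, fun k => rfl⟩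
  have hlt : ∀ k, (st k).t < (st (k + 1)).t := fun k => by
    rw [hst]
    exact (hnx k (st k)).1
  have hge : ∀ k, k ≤ (st k).t := by
    intro k
    induction k with
    | zero => exact Nat.zero_le _
    | succ k ih =>
      have := hlt k
      omega
  have hmono : ∀ k j, (st k).t ≤ (st (k + j)).t := by
    intro k j
    induction j with
    | zero => exact le_rfl
    | succ j ih =>
      have := hlt (k + j)
      rw [← Nat.add_assoc]
      omega
  have hsub : ∀ k j, (st k).D ⊆ (st (k + j)).D := by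
    intro k j
    induction j with
    | zero => exact fun _ h => h
    | succ j ih =>
      rw [← Nat.add_assoc, hst]
      exact fun d hd => (hnx (k + j) (st (k + j))).2.1 (ih hd)
  have hag : ∀ (k j : ℕ) (q : List Bool), q.length ≤ (st k).t →
      (st (k + j)).S q = (st k).S q := by
    intro k j q hq
    induction j with
    | zero => rfl
    | succ j ih =>
      rw [← Nat.add_assoc, hst, (hnx (k + j) (st (k + j))).2.2.1 q (hq.trans (hmono k j)), ih]
  obtain ⟨S, hS⟩ : ∃ S : Oracle, ∀ q, S q = (st q.length).S q := ⟨_, fun _ => rfl⟩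
  have hSk : ∀ (k : ℕ) (q : List Bool), q.length ≤ (st k).t → S q = (st k).S q := by
    intro k q hq
    rw [hS]
    rcases Nat.le_total k q.length with h | h
    · obtain ⟨j, hj⟩ := Nat.exists_eq_add_of_le h
      rw [hj]
      exact hag k j q hq
    · obtain ⟨j, hj⟩ := Nat.exists_eq_add_of_le h
      have h1 := hag q.length j q (hge _)
      rw [← hj] at h1
      exact h1.symm
  refine ⟨S, fun π hπ => ?_, fun i => ?_⟩
  · obtain ⟨k, rfl⟩ := hg π
    obtain ⟨l, hl⟩ := (hnx k (st k)).2.2.2.1 hπ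
    rw [← hst k] at hl
    refine ⟨l, fun q => ?_⟩
    obtain ⟨m, hm⟩ : ∃ m, m = (code l q).length := ⟨_, rfl⟩
    have h1 := hsub (k + 1) m hl
    have h2 : S (code l q) = (st (k + 1 + m)).S (code l q) := by
      refine hSk _ _ ?_
      have := hge (k + 1 + m)
      omega
    rw [h2]
    have h3 := (st (k + 1 + m)).sep (code l q)
    exact ⟨fun h => h3.1 ⟨_, h1, q, rfl, h⟩, fun h => h3.2 ⟨_, h1, q, rfl, h⟩⟩
  · obtain ⟨k, hk⟩ := he i
    obtain ⟨x, hxN, hx⟩ := (hnx k (st k)).2.2.2.2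
    refine ⟨x, hxN, ?_⟩
    have h1 := hx S (fun q hq => by
      rw [← hst k] at hq ⊢
      exact hSk (k + 1) q hq)
    rw [hk] at h1
    exact h1

end

end Pool.Agent.TH93.U2
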