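import Pool.Agent.TH93.U2.Key
import Pool.Agent.TH93.U2.Defs

/-!
The algorithms which ask few questions.
-/

set_option autoImplicit false

namespace Pool.Agent.TH93.U2

open MeasureTheory Pool.Agent.NPC
open Pool.Agent.H628R3.RO hiding strs mem_strs
open Pool.Agent.H822R2.ESY (join strs mem_strs card_strs bnd bnd_spec acc cert_M)
open Pool.Agent.H620R2.Gauge (Gate accProb accProb_local circ_bound circAct circAct_local
  initSt rd)
open Pool.Agent.W938.QM (numQ accS accW circ_norm circAct_sub)
open Pool.Agent.W938.Hyb (load)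

theorem numQ_le_length : ∀ l : List Gate, numQ l ≤ l.length
  | [] => le_rfl
  | g :: l => by
    have ih := numQ_le_length l
    rcases g with i | ⟨b, q, k⟩
    · simp only [numQ, List.length_cons]
      omega
    · cases b <;> simp only [numQ, List.length_cons] <;> omega

/-- The families of quantum circuits which are computed in polynomial time. -/
def QAlg : Type := {C : List Bool → List Unit × List Gate // PolyTime (fun z => bits (C z))}

instance : Countable QAlg := Pool.Agent.H620R2.Gauge.countable_circ.to_subtype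

/-- the time bound `2 ^ (m ^ c)` -/
noncomputable def pd (c : ℚ) (m : ℕ) : ℕ := ⌊(2 : ℝ) ^ ((m : ℝ) ^ (c : ℝ))⌋₊

theorem length_pad (c : ℚ) (x : List Bool) :
    (pad c x).length = 2 * x.length + 1 + pd c x.length := by
  unfold pad pd
  rw [length_pairBits, List.length_replicate]

/-- a polynomial bound for the size of the circuits -/
noncomputable def qb (C : QAlg) : Polynomial ℕ := Classical.choose (circ_bound C.2)

theorem qb_spec (C : QAlg) : ∀ x, (C.1 x).2.length ≤ (qb C).eval x.length ∧
    ∀ q k, Sum.inr (true, q, k) ∈ (C.1 x).2 → q.length ≤ (qb C).eval x.length :=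
  Classical.choose_spec (circ_bound C.2)

/-! ## Numerical estimates -/

theorem eval_le_pow (Q : Polynomial ℕ) : ∃ d : ℕ, ∀ m : ℕ, Q.eval m ≤ (m + 2) ^ d := by
  induction Q using Polynomial.induction_on' with
  | add p q hp hq =>
    obtain ⟨d, hd⟩ := hp
    obtain ⟨e, he⟩ := hq
    refine ⟨max d e + 1, fun m => ?_⟩
    rw [Polynomial.eval_add, pow_succ]
    have h1 : (m + 2) ^ d ≤ (m + 2) ^ max d e :=
      Nat.pow_le_pow_right (by omega) (le_max_left _ _)
    have h2 : (m + 2) ^ e ≤ (m + 2) ^ max d e :=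
      Nat.pow_le_pow_right (by omega) (le_max_right _ _)
    have h3 := hd m
    have h4 := he m
    nlinarith
  | monomial k a =>
    refine ⟨a + k, fun m => ?_⟩
    rw [Polynomial.eval_monomial, pow_add]
    refine Nat.mul_le_mul ?_ (Nat.pow_le_pow_left (by omega) k)
    calc a ≤ 2 ^ a := Nat.lt_two_pow_self.le
      _ ≤ (m + 2) ^ a := Nat.pow_le_pow_left (by omega) a

open Filter in
theorem num {c : ℚ} (hc : c < 1) (Q : Polynomial ℕ) :
    ∃ n₀, ∀ n ≥ n₀, Q.eval (n + pd c n) < 2 ^ (n / 5) := by
  obtain ⟨d, hd⟩ := eval_le_pow Q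
  obtain ⟨ε, hε⟩ : ∃ ε : ℝ, ε = 1 / (10 * (d + 1)) := ⟨_, rfl⟩
  have hε0 : 0 < ε := by
    rw [hε]
    positivity
  have hc' : (c : ℝ) < 1 := by exact_mod_cast hc
  -- `n ^ c ≤ ε n`
  have h1 : ∀ᶠ n : ℕ in atTop, (n : ℝ) ^ (c : ℝ) ≤ ε * n := by
    have h2 := tendsto_rpow_neg_atTop (y := 1 - (c : ℝ)) (by linarith)
    have h3 : ∀ᶠ y : ℝ in atTop, y ^ (-(1 - (c : ℝ))) < ε := h2.eventually_lt_const hε0
    have h4 := tendsto_natCast_atTop_atTop (R := ℝ) |>.eventually h3
    filter_upwards [h4, eventually_gt_atTop 0] with n hn hn0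
    have hn0' : (0 : ℝ) < n := by exact_mod_cast hn0
    have h5 : (n : ℝ) ^ (c : ℝ) = (n : ℝ) ^ (-(1 - (c : ℝ))) * n := by
      nth_rewrite 3 [← Real.rpow_one (n : ℝ)]
      rw [← Real.rpow_add hn0']
      congr 1
      ring
    rw [h5]
    exact mul_le_mul_of_nonneg_right hn.le hn0'.le
  -- `n + 2 ≤ 2 ^ (ε n)`
  have h2 : ∀ᶠ n : ℕ in atTop, (n : ℝ) + 2 ≤ 2 ^ (ε * n) := by
    have hr : 1 < (2 : ℝ) ^ ε := Real.one_lt_rpow (by norm_num) hε0
    have h3 := tendsto_pow_const_div_const_pow_of_one_lt 1 hr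
    have h4 : ∀ᶠ n : ℕ in atTop, (n : ℝ) ^ 1 / ((2 : ℝ) ^ ε) ^ n < 1 / 3 :=
      h3.eventually_lt_const (by norm_num)
    filter_upwards [h4, eventually_ge_atTop 1] with n hn hn1
    have hn1' : (1 : ℝ) ≤ n := by exact_mod_cast hn1
    have h5 : (0 : ℝ) < ((2 : ℝ) ^ ε) ^ n := by positivity
    rw [pow_one, div_lt_iff₀ h5] at hn
    have h6 : (2 : ℝ) ^ (ε * n) = ((2 : ℝ) ^ ε) ^ n := by
      rw [Real.rpow_mul (by norm_num), Real.rpow_natCast]
    rw [h6]
    linarith
  have h3 : ∀ᶠ n : ℕ in atTop, Q.eval (n + pd c n) < 2 ^ (n / 5) := by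
    filter_upwards [h1, h2, eventually_ge_atTop (10 * (d + 3))] with n g1 g2 g3
    have g4 : (pd c n : ℝ) ≤ 2 ^ (ε * n) := by
      refine (Nat.floor_le (by positivity)).trans ?_
      exact Real.rpow_le_rpow_of_exponent_le (by norm_num) g1
    have g5 : (((n + pd c n + 2 : ℕ) : ℝ)) ≤ 2 ^ (ε * n + 1) := by
      rw [Real.rpow_add (by norm_num), Real.rpow_one]
      push_cast
      linarith
    have g6 : (((n + pd c n + 2) ^ d : ℕ) : ℝ) ≤ 2 ^ ((ε * n + 1) * d) := by
      rw [Real.rpow_mul (by norm_num), Real.rpow_natCast]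
      push_cast at g5 ⊢
      exact pow_le_pow_left₀ (by positivity) g5 d
    have g7 : (ε * n + 1) * d ≤ n / 10 + d := by
      have e1 : ε * d ≤ 1 / 10 := by
        rw [hε, div_mul_eq_mul_div, div_le_iff₀ (by positivity)]
        have : (0 : ℝ) ≤ d := Nat.cast_nonneg d
        linarith
      have e2 : (0 : ℝ) ≤ n := Nat.cast_nonneg n
      nlinarith
    have g8 : (n : ℝ) / 10 + d < ((n / 5 : ℕ) : ℝ) := by
      have e1 : (n : ℝ) < 5 * (((n / 5 : ℕ) : ℝ) + 1) := by
        have : n < 5 * (n / 5 + 1) := by omega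
        exact_mod_cast this
      have e2 : (10 * ((d : ℝ) + 3)) ≤ n := by exact_mod_cast g3
      have e3 : (0 : ℝ) ≤ d := Nat.cast_nonneg d
      linarith
    have g9 : (((n + pd c n + 2) ^ d : ℕ) : ℝ) < ((2 ^ (n / 5) : ℕ) : ℝ) := by
      refine g6.trans_lt ?_
      push_cast
      rw [← Real.rpow_natCast]
      exact Real.rpow_lt_rpow_of_exponent_lt (by norm_num) (g7.trans_lt g8)
    exact (hd _).trans_lt (by exact_mod_cast g9)
  exact eventually_atTop.1 h3

/-! ## Inputs -/

/-- polynomial time, or time `2 ^ O(n ^ c)`, `c < 1` -/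
abbrev TIdx : Type := Option {c : ℚ // c < 1}

/-- the input of the algorithm -/
noncomputable def inp : TIdx → List Bool → List Bool
  | none, x => x
  | some c, x => pad c.1 x

/-- a bound for its length -/
noncomputable def ilen : TIdx → ℕ → ℕ
  | none, n => 2 * n + 1
  | some c, n => 2 * n + 1 + pd c.1 n

theorem length_inp (c : TIdx) (x : List Bool) : (inp c x).length ≤ ilen c x.length := by
  rcases c with _ | c
  · show x.length ≤ 2 * x.length + 1
    omega
  · exact (length_pad c.1 x).le

theorem small_ilen (c : TIdx) (Q : Polynomial ℕ) :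
    ∃ n₀, ∀ n ≥ n₀, Q.eval (ilen c n) < 2 ^ (n / 5) := by
  rcases c with _ | c
  · obtain ⟨n₀, hn₀⟩ := num (c := 0) (by norm_num)
      (Q.comp (Polynomial.C 2 * Polynomial.X + Polynomial.C 1))
    refine ⟨n₀, fun n hn => lt_of_le_of_lt ?_ (hn₀ n hn)⟩
    rw [Polynomial.eval_comp]
    apply eval_mono
    simp only [Polynomial.eval_add, Polynomial.eval_C, Polynomial.eval_mul,
      Polynomial.eval_X, ilen]
    omega
  · obtain ⟨n₀, hn₀⟩ := num c.2 (Q.comp (Polynomial.C 2 * Polynomial.X + Polynomial.C 1))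
    refine ⟨n₀, fun n hn => lt_of_le_of_lt ?_ (hn₀ n hn)⟩
    rw [Polynomial.eval_comp]
    apply eval_mono
    simp only [Polynomial.eval_add, Polynomial.eval_C, Polynomial.eval_mul,
      Polynomial.eval_X, ilen]
    omega

/-- The properties of the algorithms which are used: the number of the questions of `a` and their
lengths are bounded by `r`, and `r` is small. -/
structure Fam (a : Test) (r : ℕ → ℕ) : Prop where
  pos : ∀ n, 1 ≤ r n
  small : ∀ Q : Polynomial ℕ, ∃ n₀, ∀ n ≥ n₀, Q.eval (r n) < 2 ^ (n / 5)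
  loc : ∀ (O O' : Oracle) (x : List Bool), (∀ y : List Bool, y.length ≤ r x.length →
    O y = O' y) → ∀ i, (a i O x ↔ a i O' x)
  soft : ∀ x : List Bool, Soft (r x.length) a x

/-- If at least one third of the runs have to ask a string on which the two oracles differ, then the
algorithm asks few questions. -/
theorem soft_votes {a : Test} {x : List Bool} {R : ℕ} (hR0 : 1 ≤ R) {W : Type} [Fintype W]
    [Nonempty W] (Q : Oracle → W → Finset (List Bool)) (hQ : ∀ O w, (Q O w).card ≤ R)
    (h : ∀ O O' : Oracle, a false O x → a true O' x → ∀ T : Finset W,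
      (∀ w, (∃ u ∈ Q O w, O u ≠ O' u) → w ∈ T) → Fintype.card W ≤ 3 * T.card) :
    Soft R a x := by
  classical
  intro O hO
  have h2k : (0 : ℝ) < Fintype.card W := by exact_mod_cast Fintype.card_pos
  refine ⟨Finset.univ.biUnion (Q O), fun z =>
    ((Finset.univ.filter (fun w => z ∈ Q O w)).card : ℝ) / Fintype.card W,
    fun z => by positivity, ?_, fun O' hO' => ?_⟩
  · rw [← Finset.sum_div, div_le_iff₀ h2k]
    have h1 : ∑ z ∈ Finset.univ.biUnion (Q O), (Finset.univ.filter (fun w => z ∈ Q O w)).card =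
        ∑ w, ((Finset.univ.biUnion (Q O)).filter (fun z => z ∈ Q O w)).card := by
      simp only [Finset.card_filter]
      rw [Finset.sum_comm]
    have h2 : ∑ w, ((Finset.univ.biUnion (Q O)).filter (fun z => z ∈ Q O w)).card ≤
        R * Fintype.card W := by
      rw [mul_comm, ← Finset.card_univ, ← smul_eq_mul, ← Finset.sum_const]
      refine Finset.sum_le_sum fun w _ => ?_
      refine (Finset.card_le_card ?_).trans (hQ O w)
      intro u hu
      exact (Finset.mem_filter.1 hu).2
    rw [← h1] at h2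
    exact_mod_cast h2
  · have h3 := h O O' hO hO' (Finset.univ.filter (fun w => ∃ u ∈ Q O w, O u ≠ O' u))
      (fun w hw => Finset.mem_filter.2 ⟨Finset.mem_univ _, hw⟩)
    have h4 : (Finset.univ.filter (fun w => ∃ u ∈ Q O w, O u ≠ O' u)).card ≤
        ∑ z ∈ (Finset.univ.biUnion (Q O)).filter (fun z => O z ≠ O' z),
          (Finset.univ.filter (fun w => z ∈ Q O w)).card := by
      refine (Finset.card_le_card ?_).trans Finset.card_biUnion_le
      intro w hw
      obtain ⟨-, z, hz, hne⟩ := Finset.mem_filter.1 hw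
      rw [Finset.mem_biUnion]
      exact ⟨z, Finset.mem_filter.2 ⟨Finset.mem_biUnion.2 ⟨w, Finset.mem_univ _, hz⟩, hne⟩,
        Finset.mem_filter.2 ⟨Finset.mem_univ _, hz⟩⟩
    rw [← Finset.sum_div, le_div_iff₀ h2k]
    have h5 : (Fintype.card W : ℝ) ≤
        3 * ∑ z ∈ (Finset.univ.biUnion (Q O)).filter (fun z => O z ≠ O' z),
          ((Finset.univ.filter (fun w => z ∈ Q O w)).card : ℝ) := by
      have h6 := h3.trans (Nat.mul_le_mul_left 3 h4)
      exact_mod_cast h6
    have h6 : 1 / (144 * (R : ℝ)) ≤ 1 / 3 := by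
      have h7 : (1 : ℝ) ≤ R := by exact_mod_cast hR0
      apply one_div_le_one_div_of_le (by norm_num)
      linarith
    have h7 := mul_le_mul_of_nonneg_right h6 h2k.le
    have h8 : 1 / (144 * (R : ℝ)) * Fintype.card W ≤
        ∑ z ∈ (Finset.univ.biUnion (Q O)).filter (fun z => O z ≠ O' z),
          ((Finset.univ.filter (fun w => z ∈ Q O w)).card : ℝ) := by linarith
    refine h8.trans (le_of_eq ?_)
    refine Finset.sum_congr ?_ fun _ _ => rfl
    congr!

/-! ## Randomized algorithms -/

/-- the test of a randomized algorithm with `p(n)` random bits -/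
def bpTest (M : Alg) (p : Polynomial ℕ) : Test
  | true, O, x => 2 * 2 ^ p.eval x.length ≤ 3 * acc M O x (p.eval x.length)
  | false, O, x => 3 * acc M O x (p.eval x.length) ≤ 2 ^ p.eval x.length

/-- the bound -/
noncomputable def bpR (M : Alg) (p : Polynomial ℕ) (n : ℕ) : ℕ :=
  (M.p + bnd M).eval (2 * n + 1 + p.eval n) + 1

theorem small_comp {r : ℕ → ℕ} {c : TIdx} (P : Polynomial ℕ)
    (hP : ∀ n, r n ≤ P.eval (ilen c n)) (Q : Polynomial ℕ) :
    ∃ n₀, ∀ n ≥ n₀, Q.eval (r n) < 2 ^ (n / 5) := by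
  obtain ⟨n₀, hn₀⟩ := small_ilen c (Q.comp P)
  refine ⟨n₀, fun n hn => lt_of_le_of_lt ?_ (hn₀ n hn)⟩
  rw [Polynomial.eval_comp]
  exact eval_mono _ (hP n)

theorem fam_bp (M : Alg) (p : Polynomial ℕ) : Fam (bpTest M p) (bpR M p) := by
  refine ⟨fun n => Nat.le_add_left _ _, ?_, ?_, ?_⟩
  · refine small_comp (c := none) ((M.p + bnd M).comp (Polynomial.C 2 * Polynomial.X +
      Polynomial.C 1 + p) + Polynomial.C 1) fun n => ?_
    unfold bpR
    simp only [Polynomial.eval_add, Polynomial.eval_C, Polynomial.eval_comp, Polynomial.eval_mul,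
      Polynomial.eval_X, ilen]
    have h1 : p.eval n ≤ p.eval (2 * n + 1) := eval_mono _ (by omega)
    refine Nat.add_le_add_right (Nat.add_le_add (eval_mono _ ?_) (eval_mono _ ?_)) 1
    · omega
    · omega
  · intro O O' x hO i
    have h1 : acc M O x (p.eval x.length) = acc M O' x (p.eval x.length) := by
      unfold acc
      congr 1
      apply Finset.filter_congr
      intro r hr
      rw [bnd_spec M O O' (pairBits x r) (2 * x.length + 1 + p.eval x.length)]
      · rw [length_pairBits, mem_strs.1 hr]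
      · intro z hz
        refine hO z (hz.trans ?_)
        unfold bpR
        rw [Polynomial.eval_add]
        omega
    cases i
    · show 3 * acc M O x (p.eval x.length) ≤ 2 ^ p.eval x.length ↔
        3 * acc M O' x (p.eval x.length) ≤ 2 ^ p.eval x.length
      rw [h1]
    · show 2 * 2 ^ p.eval x.length ≤ 3 * acc M O x (p.eval x.length) ↔
        2 * 2 ^ p.eval x.length ≤ 3 * acc M O' x (p.eval x.length)
      rw [h1]
  · intro x
    have h1 : ∀ (O : Oracle) (w : {r : List Bool // r ∈ strs (p.eval x.length)}),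
        ∃ Q : Finset (List Bool), Q.card ≤ bpR M p x.length ∧ ∀ O' : Oracle,
          (∀ u ∈ Q, O' u = O u) → M.out O' (pairBits x w) = M.out O (pairBits x w) := by
      intro O w
      obtain ⟨Q, hQ, hQ'⟩ := cert_M M p x.length O x w.1 rfl (mem_strs.1 w.2)
      refine ⟨Q, hQ.trans ?_, hQ'⟩
      unfold bpR
      rw [Polynomial.eval_add]
      omega
    choose Q hQ using h1
    have hne : Nonempty {r : List Bool // r ∈ strs (p.eval x.length)} := by
      have h2 : (strs (p.eval x.length)).Nonempty := by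
        rw [← Finset.card_pos, card_strs]
        positivity
      exact ⟨⟨_, h2.choose_spec⟩⟩
    refine soft_votes (Nat.le_add_left _ _) Q (fun O w => (hQ O w).1) ?_
    intro O O' h2 h3 T hT
    change 3 * acc M O x (p.eval x.length) ≤ 2 ^ p.eval x.length at h2
    change 2 * 2 ^ p.eval x.length ≤ 3 * acc M O' x (p.eval x.length) at h3
    have h4 : acc M O' x (p.eval x.length) ≤ acc M O x (p.eval x.length) + T.card := by
      unfold acc
      rw [← Finset.card_map (Function.Embedding.subtype _) (s := T)]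
      refine le_trans (Finset.card_le_card ?_) (Finset.card_union_le _ _)
      intro r hr
      rw [Finset.mem_filter] at hr
      rw [Finset.mem_union, Finset.mem_filter]
      by_cases h4 : ∃ u ∈ Q O ⟨r, hr.1⟩, O u ≠ O' u
      · exact Or.inr (Finset.mem_map.2 ⟨⟨r, hr.1⟩, hT _ h4, rfl⟩)
      · left
        refine ⟨hr.1, ?_⟩
        have h5 := (hQ O ⟨r, hr.1⟩).2 O' (fun u hu => by
          by_contra h5
          exact h4 ⟨u, hu, fun h6 => h5 h6.symm⟩)
        rw [← h5]
        exact hr.2
    rw [Fintype.card_coe, card_strs]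
    omega

/-! ## Arthur-Merlin games for the complement -/

/-- the random strings for which Merlin can convince Arthur -/
noncomputable def amNum (M : Alg) (m : ℕ) (O : Oracle) (z : List Bool) : ℕ :=
  Nat.card {w : Fin m → Bool // ∃ y : List Bool, y.length ≤ m ∧
    M.out O (pairBits (List.ofFn w) (pairBits y z)) = some [true]}

/-- the test which accepts if the game is lost by Merlin -/
noncomputable def amTest (M : Alg) (p : Polynomial ℕ) (c : TIdx) : Test
  | true, O, x => 3 * amNum M (p.eval (inp c x).length) O (inp c x) ≤ 2 ^ p.eval (inp c x).length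
  | false, O, x =>
    2 * 2 ^ p.eval (inp c x).length ≤ 3 * amNum M (p.eval (inp c x).length) O (inp c x)

/-- the bound -/
noncomputable def amR (M : Alg) (p : Polynomial ℕ) (c : TIdx) (n : ℕ) : ℕ :=
  (M.p + bnd M).eval (4 * p.eval (ilen c n) + 2 + ilen c n) + 1

theorem fam_am (M : Alg) (p : Polynomial ℕ) (c : TIdx) : Fam (amTest M p c) (amR M p c) := by
  classical
  have hlen : ∀ (x : List Bool) (w : Fin (p.eval (inp c x).length) → Bool) (y : List Bool),
      y.length ≤ p.eval (inp c x).length → (pairBits (List.ofFn w) (pairBits y (inp c x))).length ≤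
        4 * p.eval (ilen c x.length) + 2 + ilen c x.length := by
    intro x w y hy
    rw [length_pairBits, length_pairBits, List.length_ofFn]
    have h1 := length_inp c x
    have h2 := eval_mono p h1
    omega
  refine ⟨fun n => Nat.le_add_left _ _, ?_, ?_, ?_⟩
  · refine small_comp (c := c) ((M.p + bnd M).comp (Polynomial.C 4 * p +
      Polynomial.C 2 + Polynomial.X) + Polynomial.C 1) fun n => ?_
    unfold amR
    simp only [Polynomial.eval_add, Polynomial.eval_C, Polynomial.eval_comp, Polynomial.eval_mul,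
      Polynomial.eval_X]
    exact le_rfl
  · intro O O' x hO i
    have h1 : amNum M (p.eval (inp c x).length) O (inp c x) =
        amNum M (p.eval (inp c x).length) O' (inp c x) := by
      unfold amNum
      refine Nat.card_congr (Equiv.subtypeEquivRight fun w => ?_)
      refine exists_congr fun y => and_congr_right fun hy => ?_
      rw [bnd_spec M O O' _ _ (hlen x w y hy)]
      intro z hz
      refine hO z (hz.trans ?_)
      unfold amR
      rw [Polynomial.eval_add]
      omega
    cases i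
    · show 2 * 2 ^ p.eval (inp c x).length ≤ 3 * _ ↔ 2 * 2 ^ p.eval (inp c x).length ≤ 3 * _
      rw [h1]
    · show 3 * _ ≤ 2 ^ p.eval (inp c x).length ↔ 3 * _ ≤ 2 ^ p.eval (inp c x).length
      rw [h1]
  · intro x
    obtain ⟨m, hm⟩ : ∃ m, m = p.eval (inp c x).length := ⟨_, rfl⟩
    have h1 : ∀ (O : Oracle) (w : Fin (p.eval (inp c x).length) → Bool),
        ∃ Q : Finset (List Bool), Q.card ≤ amR M p c x.length ∧ ∀ O' : Oracle,
          (∀ u ∈ Q, O' u = O u) → (∃ y : List Bool, y.length ≤ p.eval (inp c x).length ∧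
            M.out O (pairBits (List.ofFn w) (pairBits y (inp c x))) = some [true]) →
          (∃ y : List Bool, y.length ≤ p.eval (inp c x).length ∧
            M.out O' (pairBits (List.ofFn w) (pairBits y (inp c x))) = some [true]) := by
      intro O w
      by_cases h2 : ∃ y : List Bool, y.length ≤ p.eval (inp c x).length ∧
          M.out O (pairBits (List.ofFn w) (pairBits y (inp c x))) = some [true]
      · obtain ⟨y, hy, hy'⟩ := h2
        obtain ⟨qb, h⟩ := M.out_local
        obtain ⟨Q, hQ, -, hQ'⟩ := h O (pairBits (List.ofFn w) (pairBits y (inp c x)))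
        refine ⟨Q, hQ.trans ?_, fun O' hO' _ => ⟨y, hy, ?_⟩⟩
        · have h3 := eval_mono M.p (hlen x w y hy)
          unfold amR
          rw [Polynomial.eval_add]
          omega
        · rw [hQ' O' hO']
          exact hy'
      · exact ⟨∅, Nat.zero_le _, fun O' _ h3 => absurd h3 h2⟩
    choose Q hQ using h1
    refine soft_votes (Nat.le_add_left _ _) Q (fun O w => (hQ O w).1) ?_
    intro O O' h2 h3 T hT
    change 2 * 2 ^ p.eval (inp c x).length ≤
      3 * amNum M (p.eval (inp c x).length) O (inp c x) at h2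
    change 3 * amNum M (p.eval (inp c x).length) O' (inp c x) ≤
      2 ^ p.eval (inp c x).length at h3
    have h4 : amNum M (p.eval (inp c x).length) O (inp c x) ≤
        amNum M (p.eval (inp c x).length) O' (inp c x) + T.card := by
      unfold amNum
      rw [Nat.card_eq_fintype_card, Nat.card_eq_fintype_card, Fintype.card_subtype,
        Fintype.card_subtype]
      refine le_trans (Finset.card_le_card ?_) (Finset.card_union_le _ _)
      intro w hw
      rw [Finset.mem_filter] at hw
      rw [Finset.mem_union, Finset.mem_filter]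
      by_cases h4 : ∃ u ∈ Q O w, O u ≠ O' u
      · exact Or.inr (hT _ h4)
      · left
        exact ⟨Finset.mem_univ _, (hQ O w).2 O' (fun u hu => by
          by_contra h5
          exact h4 ⟨u, hu, fun h6 => h5 h6.symm⟩) hw.2⟩
    rw [Fintype.card_fun, Fintype.card_bool, Fintype.card_fin]
    omega

/-! ## Quantum circuits -/

/-- the test of a quantum algorithm -/
noncomputable def bqTest (C : QAlg) (c : TIdx) : Test
  | true, O, x => 2 / 3 ≤ accProb O (C.1 (inp c x))
  | false, O, x => accProb O (C.1 (inp c x)) ≤ 1 / 3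

/-- the bound -/
noncomputable def qR (C : QAlg) (c : TIdx) (n : ℕ) : ℕ := (qb C).eval (ilen c n) + 1

theorem small_qR (C : QAlg) (c : TIdx) (Q : Polynomial ℕ) :
    ∃ n₀, ∀ n ≥ n₀, Q.eval (qR C c n) < 2 ^ (n / 5) := by
  refine small_comp (c := c) (qb C + Polynomial.C 1) (fun n => ?_) Q
  unfold qR
  rw [Polynomial.eval_add, Polynomial.eval_C]

theorem circ_size (C : QAlg) (c : TIdx) (x : List Bool) :
    (C.1 (inp c x)).2.length ≤ qR C c x.length ∧
      ∀ q k, Sum.inr (true, q, k) ∈ (C.1 (inp c x)).2 → q.length ≤ qR C c x.length := by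
  have h := qb_spec C (inp c x)
  have h1 : (qb C).eval (inp c x).length ≤ qR C c x.length :=
    (eval_mono _ (length_inp c x)).trans (Nat.le_succ _)
  exact ⟨h.1.trans h1, fun q k hq => (h.2 q k hq).trans h1⟩

theorem accS_zero {m : ℕ} (O : Oracle) (l : List Gate) :
    accS O l (fun _ : Fin m → Bool => (0 : ℝ)) = 0 := by
  have h1 := circAct_sub O l (fun _ : Fin m → Bool => (0 : ℝ)) (fun _ => 0)
  simp only [sub_self] at h1
  unfold accS
  refine Finset.sum_eq_zero fun s _ => ?_
  rw [h1]
  simp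

theorem fam_bq (C : QAlg) (c : TIdx) : Fam (bqTest C c) (qR C c) := by
  refine ⟨fun n => Nat.le_add_left _ _, small_qR C c, ?_, ?_⟩
  · intro O O' x hO i
    have h1 : accProb O (C.1 (inp c x)) = accProb O' (C.1 (inp c x)) :=
      accProb_local (N := 0) fun q k hq y hy => hO y (by
        rw [hy]
        exact (circ_size C c x).2 q k hq)
    cases i
    · show accProb O (C.1 (inp c x)) ≤ 1 / 3 ↔ accProb O' (C.1 (inp c x)) ≤ 1 / 3
      rw [h1]
    · show 2 / 3 ≤ accProb O (C.1 (inp c x)) ↔ 2 / 3 ≤ accProb O' (C.1 (inp c x))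
      rw [h1]
  · intro x
    refine soft_quantum (l := (C.1 (inp c x)).2) (m := (C.1 (inp c x)).1.length)
      (Nat.le_add_left _ _) ((numQ_le_length _).trans (circ_size C c x).1) ?_
    intro O hO
    refine ⟨initSt _, fun _ => 0, ?_, fun O' hO' => ?_⟩
    · rw [init_norm]
      simp
    · rw [accS_zero, accS_zero, add_zero, add_zero]
      change accProb O (C.1 (inp c x)) ≤ 1 / 3 at hO
      change 2 / 3 ≤ accProb O' (C.1 (inp c x)) at hO'
      have h1 : 1 / 3 ≤ accProb O' (C.1 (inp c x)) - accProb O (C.1 (inp c x)) := by linarith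
      exact h1.trans (le_abs_self _)

/-- the test which accepts if no quantum witness is accepted -/
noncomputable def qmTest (C : QAlg) (c : TIdx) : Test := fun i O x => QWit O (C.1 (inp c x)) !i

theorem accW_eq (O : Oracle) (l : List Gate) {b : ℕ} (m : ℕ) (ψ : (Fin b → Bool) → ℂ) :
    accW O l m ψ = accS O l (load m fun t => (ψ t).re) + accS O l (load m fun t => (ψ t).im) := by
  unfold accW accS
  rw [← Finset.sum_add_distrib]
  refine Finset.sum_congr rfl fun s _ => ?_
  split_ifs
  · rfl
  · simp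

theorem load_norm {b : ℕ} (m : ℕ) (u : (Fin b → Bool) → ℝ) :
    ∑ s, load m u s ^ 2 = ∑ t, u t ^ 2 := by
  classical
  rw [← (Fin.appendEquiv b m (α := Bool)).sum_comp, Fintype.sum_prod_type]
  refine Finset.sum_congr rfl fun t _ => ?_
  rw [Finset.sum_eq_single (fun _ => false)]
  · unfold load
    have h1 : ∀ j : Fin m, (Fin.appendEquiv b m) (t, fun _ => false) (Fin.natAdd b j) = false := by
      intro j
      simp [Fin.appendEquiv]
    rw [if_pos h1]
    congr 2
    funext i
    simp [Fin.appendEquiv]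
  · intro r _ hr
    have h1 : ¬ ∀ j : Fin m, (Fin.appendEquiv b m) (t, r) (Fin.natAdd b j) = false := by
      intro h2
      apply hr
      funext j
      have h3 := h2 j
      simpa [Fin.appendEquiv] using h3
    unfold load
    rw [if_neg h1]
    norm_num
  · intro h
    exact absurd (Finset.mem_univ _) h

theorem wit_norm {b : ℕ} (m : ℕ) {ψ : (Fin b → Bool) → ℂ} (h : ∑ t, ‖ψ t‖ ^ 2 = 1) :
    ∑ s, load m (fun t => (ψ t).re) s ^ 2 + ∑ s, load m (fun t => (ψ t).im) s ^ 2 = 1 := by
  rw [load_norm, load_norm, ← Finset.sum_add_distrib, ← h]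
  refine Finset.sum_congr rfl fun t _ => ?_
  rw [← Complex.normSq_eq_norm_sq, Complex.normSq_apply]
  ring

theorem qwit_congr {O O' : Oracle} {C : List Unit × List Gate}
    (h : ∀ q k, Sum.inr (true, q, k) ∈ C.2 → ∀ y : List Bool, y.length = q.length → O y = O' y)
    (i : Bool) : QWit O C i ↔ QWit O' C i := by
  have h1 : ∀ ψ : (Fin C.1.length → Bool) → ℂ,
      accW O C.2 C.1.length ψ = accW O' C.2 C.1.length ψ := by
    intro ψ
    unfold accW
    refine Finset.sum_congr rfl fun s _ => ?_
    rw [circAct_local C.2 h, circAct_local C.2 h]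
  cases i
  · unfold QWit
    simp only [h1]
  · unfold QWit
    simp only [h1]

theorem fam_qm (C : QAlg) (c : TIdx) : Fam (qmTest C c) (qR C c) := by
  refine ⟨fun n => Nat.le_add_left _ _, small_qR C c, ?_, ?_⟩
  · intro O O' x hO i
    exact qwit_congr (fun q k hq y hy => hO y (by
        rw [hy]
        exact (circ_size C c x).2 q k hq)) _
  · intro x
    refine soft_quantum (l := (C.1 (inp c x)).2)
      (m := (C.1 (inp c x)).1.length + (C.1 (inp c x)).1.length)
      (Nat.le_add_left _ _) ((numQ_le_length _).trans (circ_size C c x).1) ?_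
    intro O hO
    obtain ⟨ψ, hψ, h1⟩ : ∃ ψ : (Fin (C.1 (inp c x)).1.length → Bool) → ℂ, ∑ t, ‖ψ t‖ ^ 2 = 1 ∧
      2 / 3 ≤ accW O (C.1 (inp c x)).2 (C.1 (inp c x)).1.length ψ := hO
    refine ⟨load _ fun t => (ψ t).re, load _ fun t => (ψ t).im, wit_norm _ hψ, fun O' hO' => ?_⟩
    have h2 : accW O' (C.1 (inp c x)).2 (C.1 (inp c x)).1.length ψ ≤ 1 / 3 := hO' ψ hψ
    rw [← accW_eq, ← accW_eq, abs_sub_comm]
    refine le_trans ?_ (le_abs_self _)
    linarith

/-! ## All algorithms -/

/-- randomized algorithms, Arthur-Merlin games, quantum algorithms, quantum verifiers -/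
abbrev Idx : Type := (Alg × Polynomial ℕ) ⊕ (Alg × Polynomial ℕ × TIdx) ⊕ (QAlg × TIdx) ⊕
  (QAlg × TIdx)

/-- the tests -/
noncomputable def aa : Idx → Test
  | Sum.inl i => bpTest i.1 i.2
  | Sum.inr (Sum.inl i) => amTest i.1 i.2.1 i.2.2
  | Sum.inr (Sum.inr (Sum.inl i)) => bqTest i.1 i.2
  | Sum.inr (Sum.inr (Sum.inr i)) => qmTest i.1 i.2

theorem fam_aa (i : Idx) : ∃ r, Fam (aa i) r := by
  rcases i with i | i | i | i
  · exact ⟨_, fam_bp i.1 i.2⟩
  · exact ⟨_, fam_am i.1 i.2.1 i.2.2⟩
  · exact ⟨_, fam_bq i.1 i.2⟩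
  · exact ⟨_, fam_qm i.1 i.2⟩

/-- the bound for the questions -/
noncomputable def rr (i : Idx) : ℕ → ℕ := Classical.choose (fam_aa i)

theorem fam_rr (i : Idx) : Fam (aa i) (rr i) := Classical.choose_spec (fam_aa i)

end Pool.Agent.TH93.U2
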