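import Pool.Agent.TH93.U2.Main

/-!
Almost surely only finitely many blocks have three hits; the language has at most two witnesses.
-/

set_option autoImplicit false

namespace Pool.Agent.TH93.U2

open MeasureTheory Pool.Agent.NPC
open Pool.Agent.H628R3.RO hiding strs mem_strs
open Pool.Agent.H822R2.ESY (join strs mem_strs card_strs Wx mem_Wx card_Wx)

theorem isUPle_one (A : Oracle) (L : Set (List Bool)) : IsUPle 1 A L ↔ IsUP A L := by
  constructor
  · rintro ⟨V, p, h1, h2, h3⟩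
    refine ⟨V, p, h1, h2, fun x w w' hw hw' hV hV' => ?_⟩
    by_contra hne
    have h4 := h3 x {w, w'} (fun u hu => by
      rcases Finset.mem_insert.1 hu with rfl | hu
      · exact ⟨hw, hV⟩
      · rw [Finset.mem_singleton.1 hu]
        exact ⟨hw', hV'⟩)
    rw [Finset.card_pair hne] at h4
    omega
  · rintro ⟨V, p, h1, h2, h3⟩
    refine ⟨V, p, h1, h2, fun x T hT => ?_⟩
    rw [Finset.card_le_one]
    intro w hw w' hw'
    exact h3 x w w' (hT w hw).1 (hT w' hw').1 (hT w hw).2 (hT w' hw').2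

theorem IsUPle.isNP {k : ℕ} {A : Oracle} {L : Set (List Bool)} (h : IsUPle k A L) : IsNP A L := by
  obtain ⟨V, p, h1, h2, -⟩ := h
  exact ⟨V, p, h1, h2⟩

/-- some block of length `n` has three hits -/
def Three (n : ℕ) : Set Oracle :=
  {A | ∃ x ∈ strs n, ∃ h ∈ (Wx n x).powersetCard 3, ∀ κ ∈ h, Hit (mm n) κ A}

theorem prob_hits (m : ℕ) (h : Finset Cand) :
    prob {A | ∀ κ ∈ h, Hit m κ A} = ((1 / 2 : ℝ) ^ m) ^ h.card := by
  have h1 := prob_plant MeasurableSet.univ (allSpots m h)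
  have h2 : {A : Oracle | ∀ κ ∈ h, Hit m κ A} = {A | ∀ x ∈ allSpots m h, A x = true} := by
    ext A
    constructor
    · intro h2 x hx
      obtain ⟨κ, hκ, hx'⟩ := M2.mem_allSpots.1 hx
      exact (M2.hit_iff.1 (h2 κ hκ)) x hx'
    · intro h2 κ hκ
      rw [M2.hit_iff]
      intro x hx
      exact h2 x (M2.mem_allSpots.2 ⟨κ, hκ, hx⟩)
  rw [Set.inter_univ, Set.preimage_univ, prob_univ', mul_one, M2.card_allSpots, pow_mul] at h1
  rw [h2]
  exact h1

theorem prob_three (n : ℕ) : prob (Three n) ≤ 32 * (9 / 10 : ℝ) ^ n := by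
  have h1 : Three n = ⋃ x ∈ strs n, ⋃ h ∈ (Wx n x).powersetCard 3,
      {A | ∀ κ ∈ h, Hit (mm n) κ A} := by
    ext A
    simp only [Three, Set.mem_ofPred_eq, Set.mem_iUnion, exists_prop]
  have h2 : prob (Three n) ≤ ∑ x ∈ strs n, ∑ h ∈ (Wx n x).powersetCard 3,
      ((1 / 2 : ℝ) ^ mm n) ^ 3 := by
    rw [h1]
    refine (measureReal_biUnion_finset_le _ _).trans (Finset.sum_le_sum fun x _ => ?_)
    refine (measureReal_biUnion_finset_le _ _).trans (Finset.sum_le_sum fun h hh => ?_)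
    have h3 := prob_hits (mm n) h
    rw [(Finset.mem_powersetCard.1 hh).2] at h3
    exact h3.le
  have h3 : ∑ x ∈ strs n, ∑ h ∈ (Wx n x).powersetCard 3, ((1 / 2 : ℝ) ^ mm n) ^ 3 ≤
      2 ^ n * ((2 ^ n) ^ 3 * ((1 / 2 : ℝ) ^ mm n) ^ 3) := by
    have h4 : ∀ x ∈ strs n, ∑ h ∈ (Wx n x).powersetCard 3, ((1 / 2 : ℝ) ^ mm n) ^ 3 ≤
        (2 ^ n) ^ 3 * ((1 / 2 : ℝ) ^ mm n) ^ 3 := by
      intro x _
      rw [Finset.sum_const, nsmul_eq_mul, Finset.card_powersetCard, card_Wx]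
      refine mul_le_mul_of_nonneg_right ?_ (by positivity)
      exact_mod_cast Nat.choose_le_pow (2 ^ n) 3
    refine (Finset.sum_le_sum h4).trans (le_of_eq ?_)
    rw [Finset.sum_const, nsmul_eq_mul, card_strs]
    push_cast
    rfl
  refine h2.trans (h3.trans ?_)
  obtain ⟨j, r, hr, hn⟩ : ∃ j r : ℕ, r < 5 ∧ n = 5 * j + r := ⟨n / 5, n % 5,
    Nat.mod_lt _ (by norm_num), by omega⟩
  have hmm : mm n = 7 * j + r := by
    unfold mm
    omega
  have e1 : (2 : ℝ) ^ n * ((2 ^ n) ^ 3 * ((1 / 2 : ℝ) ^ mm n) ^ 3) = 2 ^ r * (1 / 2) ^ j := by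
    rw [hmm, hn]
    have e2 : (2 : ℝ) ^ (5 * j + r) * ((2 ^ (5 * j + r)) ^ 3 * ((1 / 2 : ℝ) ^ (7 * j + r)) ^ 3) =
        (2 ^ (20 * j) * (1 / 2) ^ (20 * j)) * (2 ^ (3 * r) * (1 / 2) ^ (3 * r)) *
          (2 ^ r * (1 / 2) ^ j) := by
      ring
    rw [e2, ← mul_pow, ← mul_pow]
    norm_num
  rw [e1]
  have e3 : (1 / 2 : ℝ) ^ j ≤ (9 / 10 : ℝ) ^ (5 * j) := by
    rw [pow_mul]
    exact pow_le_pow_left₀ (by norm_num) (by norm_num) j
  have e4 : (2 : ℝ) ^ r ≤ 32 * (9 / 10 : ℝ) ^ r := by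
    interval_cases r <;> norm_num
  calc (2 : ℝ) ^ r * (1 / 2) ^ j ≤ (32 * (9 / 10 : ℝ) ^ r) * (9 / 10 : ℝ) ^ (5 * j) :=
        mul_le_mul e4 e3 (by positivity) (by positivity)
    _ = 32 * (9 / 10 : ℝ) ^ n := by
        rw [hn]
        ring

theorem ae_two : ∀ᵐ A ∂randomOracle, ∃ N₀ : ℕ, ∀ n ≥ N₀, A ∉ Three n := by
  have h1 : (∑' n, randomOracle (Three n)) ≠ ⊤ := by
    have h2 : ∀ n, randomOracle (Three n) ≤ ENNReal.ofReal (32 * (9 / 10 : ℝ) ^ n) := by
      intro n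
      have h3 := prob_three n
      unfold prob at h3
      rw [measureReal_def] at h3
      rw [← ENNReal.ofReal_toReal (measure_ne_top randomOracle (Three n))]
      exact ENNReal.ofReal_le_ofReal h3
    have hs : Summable (fun n : ℕ => 32 * (9 / 10 : ℝ) ^ n) :=
      (summable_geometric_of_lt_one (by norm_num) (by norm_num)).mul_left 32
    refine ne_top_of_le_ne_top ?_ (ENNReal.tsum_le_tsum h2)
    rw [← ENNReal.ofReal_tsum_of_nonneg (fun n => by positivity) hs]
    exact ENNReal.ofReal_ne_top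
  filter_upwards [ae_eventually_notMem h1] with A hA
  exact Filter.eventually_atTop.1 hA

/-- the language without its short strings -/
def LN (N₀ : ℕ) (A : Oracle) : Set (List Bool) := {x | N₀ ≤ x.length ∧ x ∈ LL A}

theorem isUPle_LN {A : Oracle} {N₀ : ℕ} (hA : ∀ n ≥ N₀, A ∉ Three n) : IsUPle 2 A (LN N₀ A) := by
  classical
  obtain ⟨Q, hQ⟩ : ∃ Q : List Bool × List Bool → List (List Bool),
      Q = fun p => asks (mm p.1.length) 0 (p.1 ++ p.2) := ⟨_, rfl⟩
  obtain ⟨T, hT⟩ : ∃ T : (List Bool × List Bool) × List Bool → Bool,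
      T = fun p => (decide (N₀ ≤ p.1.1.length) && decide (p.1.2.length = p.1.1.length)) &&
        p.2.all id := ⟨_, rfl⟩
  have hQp : Poly Q := by
    rw [hQ]
    have hlen : UPoly (fun p : List Bool × List Bool => p.1.length) :=
      UPoly.length (Poly.fst Poly.id)
    refine p_asks ?_ (UPoly.const 0) (Poly.append (Poly.fst Poly.id) (Poly.snd Poly.id))
    unfold mm
    refine UPoly.add hlen (UPoly.mul (UPoly.const 2) ?_)
    exact UPoly.of_le (Poly.div hlen.toPoly (NPC.Poly.const 5)) hlen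
      (fun p => Nat.div_le_self _ _)
  have hTp : Poly T := by
    rw [hT]
    exact Poly.and (Poly.and (Poly.decide_le (NPC.Poly.const N₀)
      (Poly.length (Poly.fst (Poly.fst Poly.id))))
      (Poly.decide_eq (Poly.length (Poly.snd (Poly.fst Poly.id)))
      (Poly.length (Poly.fst (Poly.fst Poly.id))))) (p_all_id (Poly.snd Poly.id))
  have hV : IsFP A (fun y => (fun z : List Bool × List Bool => [T (unpair z.1, z.2)])
      (y, ((fun y => Q (unpair y)) y).map A)) := by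
    refine IsFP.tt (Q := fun y => Q (unpair y)) (H := fun z => [T (unpair z.1, z.2)])
      (hQp.comp poly_unpair) ?_
    exact Poly.cons (hTp.comp (Poly.pair (poly_unpair.comp (Poly.fst Poly.id))
      (Poly.snd Poly.id))) (NPC.Poly.const [])
  have hacc : ∀ x w : List Bool, [T ((x, w), (Q (x, w)).map A)] = [true] ↔
      N₀ ≤ x.length ∧ w.length = x.length ∧ Hit (mm x.length) (0, x ++ w) A := by
    intro x w
    rw [hT, hQ]
    simp only [List.cons.injEq, and_true, Bool.and_eq_true, decide_eq_true_eq, asks_all]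
    tauto
  refine ⟨_, Polynomial.X, hV, fun x => ?_, fun x T' hT' => ?_⟩
  · simp only [unpair_pairBits, hacc, Polynomial.eval_X]
    constructor
    · rintro ⟨h1, w, hw, hh⟩
      exact ⟨w, hw.le, h1, hw, hh⟩
    · rintro ⟨w, -, h1, hw, hh⟩
      exact ⟨h1, w, hw, hh⟩
  · simp only [unpair_pairBits, hacc, Polynomial.eval_X] at hT'
    by_contra hc
    push Not at hc
    obtain ⟨T₃, h1, h2⟩ := Finset.exists_subset_card_eq (show 3 ≤ T'.card by omega)
    obtain ⟨w₀, hw₀⟩ : T₃.Nonempty := by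
      rw [← Finset.card_pos, h2]
      norm_num
    refine hA x.length (hT' w₀ (h1 hw₀)).2.1 ⟨x, mem_strs.2 rfl,
      T₃.image (fun w => ((0, x ++ w) : Cand)), ?_, ?_⟩
    · rw [Finset.mem_powersetCard]
      refine ⟨?_, ?_⟩
      · intro κ hκ
        obtain ⟨w, hw, rfl⟩ := Finset.mem_image.1 hκ
        exact mem_Wx.2 ⟨w, (hT' w (h1 hw)).2.2.1, rfl⟩
      · rw [Finset.card_image_of_injective, h2]
        intro w w' h
        exact List.append_cancel_left (congrArg Prod.snd h)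
    · intro κ hκ
      obtain ⟨w, hw, rfl⟩ := Finset.mem_image.1 hκ
      exact (hT' w (h1 hw)).2.2.2

end Pool.Agent.TH93.U2
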