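import Pool.Agent.TH93.U2.Two
import Pool.Agent.H822R2.ESY.Final

/-!
Languages with unique witnesses reduce to all separators of some disjoint pair of languages with
unique witnesses (relative to every oracle).
-/

set_option autoImplicit false

namespace Pool.Agent.TH93.U2

open Pool.Agent.NPC
open Pool.Agent.H628R3.RO hiding strs mem_strs
open Pool.Agent.H822R2.ESY (join IsP)

/-- the algorithm with longer questions -/
def leftD (D : List Bool → List Bool) (y : List Bool) : List Bool :=
  if (D y).head? = some false then false :: D y else D y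

/-- the algorithm with longer questions -/
noncomputable def leftAlg (M : Alg) : Alg where
  D := leftD M.D
  poly := Pool.Agent.H622R2.polyTime_of_poly_list (by
    have hD := Pool.Agent.H622R2.poly_of_polyTime M.poly
    exact Poly.ite (Poly.decide_eq (Poly.head? hD) (NPC.Poly.const _))
      (Poly.cons (NPC.Poly.const false) hD) hD)
  p := M.p

theorem leftAlg_run (M : Alg) (A S : Oracle) (x : List Bool) : ∀ (n : ℕ) (a : List Bool),
    (leftAlg M).run (join A S) x n a = M.run A x n a := by
  intro n
  induction n with
  | zero => intro a; rfl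
  | succ n ih =>
    intro a
    have hD : (leftAlg M).D (pairBits x a) = leftD M.D (pairBits x a) := rfl
    rw [Alg.run, Alg.run, hD]
    unfold leftD
    rcases hd : M.D (pairBits x a) with _ | ⟨b, q⟩
    · simp
    · cases b
      · simp only [List.head?_cons, if_true]
        rw [ih]
        rfl
      · simp

theorem isFP_left {A : Oracle} (S : Oracle) {F : List Bool → List Bool} (h : IsFP A F) :
    IsFP (join A S) F := by
  obtain ⟨M, hM⟩ := h
  refine ⟨leftAlg M, fun x => ?_⟩
  rw [← hM x]
  exact leftAlg_run M A S x _ _

/-- the strings `(x, u)` such that the bit number `|u| - 2` of the code of a witness of `x` is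
`b` -/
def KK (V : List Bool → List Bool) (p : Polynomial ℕ) (b : Bool) : Set (List Bool) :=
  {z | ∃ w : List Bool, w.length ≤ p.eval (unpair z).1.length ∧
    V (pairBits (unpair z).1 w) = [true] ∧ pairBits (unpair z).1 (unpair z).2 = z ∧
    (pairBits w [])[(unpair z).2.length - 2]? = some b}

theorem isUP_KK {A : Oracle} {V : List Bool → List Bool} {p : Polynomial ℕ} (hV : IsFP A V)
    (hu : ∀ x w w', w.length ≤ p.eval x.length → w'.length ≤ p.eval x.length →
      V (pairBits x w) = [true] → V (pairBits x w') = [true] → w = w') (b : Bool) :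
    IsUP A (KK V p b) := by
  classical
  obtain ⟨G, hG⟩ : ∃ G : List Bool → List Bool,
      G = fun y => pairBits (unpair (unpair y).1).1 (unpair y).2 := ⟨_, rfl⟩
  obtain ⟨T, hT⟩ : ∃ T : List Bool → Bool, T = fun y =>
      decide ((unpair y).2.length ≤ p.eval (unpair (unpair y).1).1.length) &&
      (decide (pairBits (unpair (unpair y).1).1 (unpair (unpair y).1).2 = (unpair y).1) &&
      decide ((pairBits (unpair y).2 [])[(unpair (unpair y).1).2.length - 2]? = some b)) :=
    ⟨_, rfl⟩
  have h1 : Poly (fun y : List Bool => (unpair y).1) := Poly.fst poly_unpair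
  have h2 : Poly (fun y : List Bool => (unpair y).2) := Poly.snd poly_unpair
  have h11 : Poly (fun y : List Bool => (unpair (unpair y).1).1) := h1.comp h1
  have h21 : Poly (fun y : List Bool => (unpair (unpair y).1).2) := h2.comp h1
  have hGp : Poly G := by
    rw [hG]
    exact H622R2.poly_pairBits h11 h2
  have hTp : Poly T := by
    rw [hT]
    refine Poly.and (Poly.decide_le (Poly.length h2) (UPoly.eval (UPoly.length h11) p).toPoly)
      (Poly.and (Poly.decide_eq (H622R2.poly_pairBits h11 h21) h1)
        (Poly.decide_eq (Poly.getElem? (H622R2.poly_pairBits h2 (NPC.Poly.const []))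
          (Poly.sub (Poly.length h21) (NPC.Poly.const 2))) (NPC.Poly.const (some b))))
  have hW : IsFP A (fun y => (fun t => if (unpair t).2 = [true] ∧ T (unpair t).1 = true then
      [true] else []) (pairBits y (V (G y)))) := by
    refine IsFP.comp (G := fun t => if (unpair t).2 = [true] ∧ T (unpair t).1 = true then
      [true] else []) (F := fun y => pairBits y (V (G y))) ?_ ?_
    · apply IsFP.of_poly
      refine Poly.ite ?_ (NPC.Poly.const _) (NPC.Poly.const _)
      refine (Poly.and (Poly.decide_eq h2 (NPC.Poly.const [true])) (hTp.comp h1)).congr ?_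
      intro t
      rw [Bool.decide_and, Bool.decide_eq_true]
    · exact IsFP.pair (IsFP.of_poly Poly.id) (IsFP.comp hV (IsFP.of_poly hGp))
  have hacc : ∀ z w : List Bool, (fun t => if (unpair t).2 = [true] ∧ T (unpair t).1 = true then
      [true] else []) (pairBits (pairBits z w) (V (G (pairBits z w)))) = [true] ↔
      w.length ≤ p.eval (unpair z).1.length ∧
      V (pairBits (unpair z).1 w) = [true] ∧ pairBits (unpair z).1 (unpair z).2 = z ∧
      (pairBits w [])[(unpair z).2.length - 2]? = some b := by
    intro z w
    simp only [unpair_pairBits, hG, hT, Bool.and_eq_true, decide_eq_true_eq]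
    constructor
    · intro h
      split_ifs at h with h3
      · exact ⟨h3.2.1, h3.1, h3.2.2.1, h3.2.2.2⟩
    · rintro ⟨g1, g2, g3, g4⟩
      rw [if_pos ⟨g2, g1, g3, g4⟩]
  have hlen : ∀ z : List Bool, pairBits (unpair z).1 (unpair z).2 = z →
      (unpair z).1.length ≤ z.length := by
    intro z hz
    have h3 := length_pairBits (unpair z).1 (unpair z).2
    rw [hz] at h3
    omega
  refine ⟨_, p, hW, fun z => ?_, fun z w w' _ _ h3 h4 => ?_⟩
  · constructor
    · rintro ⟨w, g1, g2, g3, g4⟩
      exact ⟨w, g1.trans (eval_mono p (hlen z g3)), (hacc z w).2 ⟨g1, g2, g3, g4⟩⟩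
    · rintro ⟨w, -, g⟩
      exact ⟨w, (hacc z w).1 g⟩
  · rw [hacc] at h3 h4
    exact hu _ w w' h3.1 h4.1 h3.2.1 h4.2.1

/-- Every language in `UP` relative to `A` is decided in polynomial time with the oracle `A` and any
separator of a suitable disjoint pair of languages in `UP` relative to `A`. (Here `g` is a code for
the strings.) -/
theorem up_reduces' (A : Oracle) (L : Set (List Bool)) (hL : IsUP A L) :
    ∃ K₀ K₁ : Set (List Bool), IsUP A K₀ ∧ IsUP A K₁ ∧ (∀ q, ¬ (q ∈ K₀ ∧ q ∈ K₁)) ∧
      ∀ (S : Oracle) (g : List Bool → List Bool), Poly g → (∀ q ∈ K₀, S (g q) = true) →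
        (∀ q ∈ K₁, S (g q) = false) → IsP (join A S) L := by
  classical
  obtain ⟨V, p, hV, hL, hu⟩ := hL
  refine ⟨KK V p true, KK V p false, isUP_KK hV hu true, isUP_KK hV hu false, ?_, ?_⟩
  · rintro q ⟨⟨w, g1, g2, -, g4⟩, ⟨w', g1', g2', -, g4'⟩⟩
    have h1 := hu _ w w' g1 g1' g2 g2'
    subst h1
    rw [g4] at g4'
    simp at g4'
  intro S g hg hS0 hS1
  obtain ⟨Q, hQ⟩ : ∃ Q : List Bool → List (List Bool), Q = fun x =>
      (asks (2 * p.eval x.length + 1) 0 []).map (fun u => true :: g (pairBits x u)) := ⟨_, rfl⟩
  have hQp : Poly Q := by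
    rw [hQ]
    refine NPC.Poly.map (F := fun x u => true :: g (pairBits x u)) ?_ ?_
    · refine p_asks ?_ (UPoly.const 0) (NPC.Poly.const [])
      exact UPoly.add (UPoly.mul (UPoly.const 2) (UPoly.eval (UPoly.length Poly.id) p))
        (UPoly.const 1)
    · exact Poly.cons (NPC.Poly.const true)
        (hg.comp (H622R2.poly_pairBits (Poly.fst Poly.id) (Poly.snd Poly.id)))
  obtain ⟨F₁, hF₁⟩ : ∃ F₁ : List Bool → List Bool, F₁ = fun x =>
      (fun z : List Bool × List Bool => pairBits z.1 (unpair z.2).1)
        (x, (Q x).map (join A S)) := ⟨_, rfl⟩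
  have hF₁p : IsFP (join A S) F₁ := by
    rw [hF₁]
    refine IsFP.tt (Q := Q) (H := fun z => pairBits z.1 (unpair z.2).1) hQp ?_
    exact H622R2.poly_pairBits (Poly.fst Poly.id)
      ((Poly.fst poly_unpair).comp (Poly.snd Poly.id))
  have hF₂ : IsFP (join A S) (fun x => pairBits (F₁ x) (V (F₁ x))) :=
    IsFP.comp (G := fun y => pairBits y (V y)) (F := F₁)
      (IsFP.pair (IsFP.of_poly Poly.id) (isFP_left S hV)) hF₁p
  have h1 : Poly (fun y : List Bool => (unpair y).1) := Poly.fst poly_unpair
  have h2 : Poly (fun y : List Bool => (unpair y).2) := Poly.snd poly_unpair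
  obtain ⟨H, hH⟩ : ∃ H : List Bool → List Bool, H = fun t =>
      if (unpair t).2 = [true] ∧
        (unpair (unpair t).1).2.length ≤ p.eval (unpair (unpair t).1).1.length then
      [true] else [] := ⟨_, rfl⟩
  have hHp : Poly H := by
    rw [hH]
    refine Poly.ite ?_ (NPC.Poly.const _) (NPC.Poly.const _)
    refine (Poly.and (Poly.decide_eq h2 (NPC.Poly.const [true]))
      (Poly.decide_le (Poly.length (h2.comp h1))
        (UPoly.eval (UPoly.length (h1.comp h1)) p).toPoly)).congr ?_
    intro t
    rw [Bool.decide_and]
  refine ⟨_, IsFP.comp (IsFP.of_poly hHp) hF₂, fun x => ?_⟩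
  have hval : H (pairBits (F₁ x) (V (F₁ x))) = [true] ↔
      V (pairBits x (unpair ((Q x).map (join A S))).1) = [true] ∧
        (unpair ((Q x).map (join A S))).1.length ≤ p.eval x.length := by
    simp only [hH, hF₁, unpair_pairBits]
    constructor
    · intro h
      split_ifs at h with h3
      exact h3
    · intro h
      rw [if_pos h]
  rw [hval]
  constructor
  · intro hx
    obtain ⟨w, hw, hVw⟩ := (hL x).1 hx
    -- the answers are the code of `w`
    obtain ⟨s, hs⟩ : ∃ s, s = (Q x).map (join A S) := ⟨_, rfl⟩
    have hslen : s.length = 2 * p.eval x.length + 1 := by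
      rw [hs, hQ]
      simp [asks]
    have hsi : ∀ i, i < 2 * p.eval x.length + 1 → s[i]? = some (S (g (pairBits x (pos 0 i [])))) := by
      intro i hi
      rw [hs, hQ]
      simp only [asks, List.map_map, List.getElem?_map]
      rw [List.getElem?_range hi]
      rfl
    have hcl : (pairBits w []).length = 2 * w.length + 1 := by
      rw [length_pairBits]
      simp
    have hpre : s.take (2 * w.length + 1) = pairBits w [] := by
      apply List.ext_getElem?
      intro i
      rcases Nat.lt_or_ge i (2 * w.length + 1) with hi | hi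
      · rw [List.getElem?_take_of_lt hi, hsi i (by omega)]
        obtain ⟨c, hc⟩ : ∃ c, (pairBits w [])[i]? = some c := by
          rw [List.getElem?_eq_getElem (by rw [hcl]; exact hi)]
          exact ⟨_, rfl⟩
        rw [hc]
        have hmem : pairBits x (pos 0 i []) ∈ KK V p c := by
          refine ⟨w, ?_, ?_, ?_, ?_⟩
          · rw [unpair_pairBits]
            exact hw
          · rw [unpair_pairBits]
            exact hVw
          · rw [unpair_pairBits]
          · rw [unpair_pairBits, length_pos]
            simp only [List.length_nil, zero_add, add_zero, Nat.add_sub_cancel]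
            exact hc
        cases c
        · rw [hS1 _ hmem]
        · rw [hS0 _ hmem]
      · rw [List.getElem?_eq_none (by rw [List.length_take]; omega),
          List.getElem?_eq_none (by rw [hcl]; exact hi)]
    have hss : s = pairBits w (s.drop (2 * w.length + 1)) := by
      calc s = s.take (2 * w.length + 1) ++ s.drop (2 * w.length + 1) :=
            (List.take_append_drop _ _).symm
        _ = pairBits w [] ++ s.drop (2 * w.length + 1) := by rw [hpre]
        _ = _ := by
          unfold pairBits
          simp
    rw [← hs, hss, unpair_pairBits]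
    exact ⟨hVw, hw⟩
  · rintro ⟨h3, h4⟩
    exact (hL x).2 ⟨_, h4, h3⟩

/-- Every language in `UP` relative to `A` is decided in polynomial time with the oracle `A` and any
separator of a suitable disjoint pair of languages in `UP` relative to `A`. -/
theorem up_reduces (A : Oracle) (L : Set (List Bool)) (hL : IsUP A L) :
    ∃ K₀ K₁ : Set (List Bool), IsUP A K₀ ∧ IsUP A K₁ ∧ (∀ q, ¬ (q ∈ K₀ ∧ q ∈ K₁)) ∧
      ∀ S : Oracle, (∀ q ∈ K₀, S q = true) → (∀ q ∈ K₁, S q = false) → IsP (join A S) L := by
  obtain ⟨K₀, K₁, h0, h1, hd, h⟩ := up_reduces' A L hL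
  exact ⟨K₀, K₁, h0, h1, hd, fun S hS0 hS1 => h S (fun q => q) Poly.id hS0 hS1⟩

theorem isUP_isNP {A : Oracle} {L : Set (List Bool)} (h : IsUP A L) : IsNP A L := by
  obtain ⟨V, p, hV, hL, -⟩ := h
  exact ⟨V, p, hV, hL⟩

/-! ## Questions to a part of the oracle -/

/-- the algorithm which asks `g q` instead of `q`, for the second oracle -/
def recodeD (g : List Bool → List Bool) (D : List Bool → List Bool) (y : List Bool) : List Bool :=
  if (D y).head? = some false ∧ (D y).tail.head? = some true then
    false :: true :: g (D y).tail.tail else D y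

/-- the algorithm which asks `g q` instead of `q`, for the second oracle -/
noncomputable def recodeAlg {g : List Bool → List Bool} (hg : Poly g) (M : Alg) : Alg where
  D := recodeD g M.D
  poly := Pool.Agent.H622R2.polyTime_of_poly_list (by
    have hD := Pool.Agent.H622R2.poly_of_polyTime M.poly
    refine Poly.ite ?_ (Poly.cons (NPC.Poly.const false) (Poly.cons (NPC.Poly.const true)
        (hg.comp (Poly.tail (Poly.tail hD))))) hD
    refine (Poly.and (Poly.decide_eq (Poly.head? hD) (NPC.Poly.const (some false)))
      (Poly.decide_eq (Poly.head? (Poly.tail hD)) (NPC.Poly.const (some true)))).congr ?_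
    intro t
    rw [Bool.decide_and])
  p := M.p

theorem recodeAlg_run {g : List Bool → List Bool} (hg : Poly g) (M : Alg) (A S : Oracle)
    (x : List Bool) : ∀ (n : ℕ) (a : List Bool),
    (recodeAlg hg M).run (join A S) x n a = M.run (join A fun q => S (g q)) x n a := by
  intro n
  induction n with
  | zero => intro a; rfl
  | succ n ih =>
    intro a
    have hD : (recodeAlg hg M).D (pairBits x a) = recodeD g M.D (pairBits x a) := rfl
    rw [Alg.run, Alg.run, hD]
    unfold recodeD
    rcases hd : M.D (pairBits x a) with _ | ⟨b, q⟩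
    · simp
    · cases b
      · rcases q with _ | ⟨b', q⟩
        · rw [if_neg (by simp)]
          simp only []
          rw [ih]
          rfl
        · cases b'
          · rw [if_neg (by simp)]
            simp only []
            rw [ih]
            rfl
          · rw [if_pos (by simp)]
            simp only [List.tail_cons]
            rw [ih]
            rfl
      · rw [if_neg (by simp)]

theorem isFP_recode {A S : Oracle} {g : List Bool → List Bool} (hg : Poly g)
    {F : List Bool → List Bool} (h : IsFP (join A fun q => S (g q)) F) : IsFP (join A S) F := by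
  obtain ⟨M, hM⟩ := h
  refine ⟨recodeAlg hg M, fun x => ?_⟩
  rw [← hM x]
  exact recodeAlg_run hg M A S x _ _

end Pool.Agent.TH93.U2
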